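import Mathlib
import Pool.Agent.R34.Ident3

/-!
A dense graph has a minor `D` on at most `2 K` vertices with all degrees at least `K`.
-/

set_option autoImplicit false
set_option linter.unusedSectionVars false

namespace Pool.Agent.R34.FH

open SimpleGraph Finset Classical
open Pool.Agent.TH507.Host Pool.Agent.R34.Ident

/-- the neighbours of `v` -/
noncomputable def nb {V : Type} [Fintype V] (G : SimpleGraph V) (v : V) : Finset V :=
  univ.filter (fun y => G.Adj v y)

/-- the number of ordered pairs of adjacent vertices (twice the number of edges) -/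
noncomputable def pr {V : Type} [Fintype V] (G : SimpleGraph V) : ℕ :=
  ((univ : Finset (V × V)).filter (fun x => G.Adj x.1 x.2)).card

lemma mem_nb {V : Type} [Fintype V] {G : SimpleGraph V} {v y : V} : y ∈ nb G v ↔ G.Adj v y := by
  simp [nb]

lemma pr_eq {V : Type} [Fintype V] (G : SimpleGraph V) : pr G = ∑ v, (nb G v).card := by
  unfold pr
  rw [card_filter, Fintype.sum_prod_type]
  apply sum_congr rfl
  intro v _
  rw [nb, card_filter]

/-- minors by deleting vertices and edges -/
lemma minor_sub {V V' : Type} {G : SimpleGraph V} {G' : SimpleGraph V'} (f : V' → V)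
    (hf : Function.Injective f) (h : ∀ u v, G'.Adj u v → G.Adj (f u) (f v)) : IsMinor G' G :=
  by
  refine ⟨fun v => {f v}, ?_, ?_, ?_⟩
  · intro v
    rw [connected_iff_exists_forall_reachable]
    refine ⟨⟨f v, rfl⟩, ?_⟩
    rintro ⟨w, rfl⟩
    exact Reachable.refl _
  · intro x y hxy
    exact Set.disjoint_singleton.2 (fun h' => hxy (hf h'))
  · intro x y hxy
    exact ⟨f x, rfl, f y, rfl, h _ _ hxy⟩

/-- the vertex map of the contraction of the edge `u v` -/
noncomputable def cmap {V : Type} (u v : V) (huv : u ≠ v) : V → {x : V // x ≠ v} :=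
  fun x => if h : x = v then ⟨u, huv⟩ else ⟨x, h⟩

lemma cmap_v {V : Type} {u v : V} (huv : u ≠ v) : cmap u v huv v = ⟨u, huv⟩ := by simp [cmap]

lemma cmap_ne {V : Type} {u v : V} (huv : u ≠ v) {x : V} (hx : x ≠ v) :
    cmap u v huv x = ⟨x, hx⟩ := by simp [cmap, hx]

lemma cmap_eq {V : Type} {u v : V} (huv : u ≠ v) {x y : V}
    (h : cmap u v huv x = cmap u v huv y) : x = y ∨ (x = u ∧ y = v) ∨ (x = v ∧ y = u) := by
  by_cases hx : x = v
  · by_cases hy : y = v
    · exact Or.inl (hx.trans hy.symm)
    · rw [hx, cmap_v, cmap_ne huv hy, Subtype.mk.injEq] at h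
      exact Or.inr (Or.inr ⟨hx, h.symm⟩)
  · by_cases hy : y = v
    · rw [hy, cmap_v, cmap_ne huv hx, Subtype.mk.injEq] at h
      exact Or.inr (Or.inl ⟨h, hy⟩)
    · rw [cmap_ne huv hx, cmap_ne huv hy, Subtype.mk.injEq] at h
      exact Or.inl h

lemma contract_minor {V : Type} {G : SimpleGraph V} {u v : V} (h : G.Adj u v) :
    IsMinor (quot G (cmap u v h.ne)) G := by
  refine ⟨fun a => {x | cmap u v h.ne x = a}, ?_, ?_, ?_⟩
  · rintro ⟨a, ha⟩
    rw [connected_iff_exists_forall_reachable]
    refine ⟨⟨a, cmap_ne h.ne ha⟩, ?_⟩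
    rintro ⟨x, hx⟩
    have hx' : cmap u v h.ne a = cmap u v h.ne x := by
      rw [cmap_ne h.ne ha]
      exact hx.symm
    rcases cmap_eq h.ne hx' with h1 | ⟨h1, h2⟩ | ⟨h1, h2⟩
    · subst h1
      exact Reachable.refl _
    · subst h1; subst h2
      exact Adj.reachable h
    · exact absurd h1 ha
  · intro x y hxy
    rw [Set.disjoint_left]
    rintro z rfl h2
    exact hxy h2
  · rintro x y ⟨-, a, b, ha, hb, hab⟩
    exact ⟨a, ha, b, hb, hab⟩

/-- the number of edges after a contraction -/
lemma pr_contract {V : Type} [Fintype V] {G : SimpleGraph V} {u v : V} (h : G.Adj u v) :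
    pr G ≤ pr (quot G (cmap u v h.ne)) + 2 * (1 + (nb G u ∩ nb G v).card) := by
  set C := nb G u ∩ nb G v with hC
  set B : Finset (V × V) := {(u, v), (v, u)} ∪ (C.image (fun b => (v, b)) ∪ C.image (fun b => (b, v)))
    with hB
  have hBc : B.card ≤ 2 * (1 + C.card) := by
    have h1 := card_union_le ({(u, v), (v, u)} : Finset (V × V))
      (C.image (fun b => (v, b)) ∪ C.image (fun b => (b, v)))
    have h2 := card_union_le (C.image (fun b => (v, b))) (C.image (fun b => (b, v)))
    have h3 := card_image_le (s := C) (f := fun b => (v, b))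
    have h4 := card_image_le (s := C) (f := fun b => (b, v))
    have h5 : ({(u, v), (v, u)} : Finset (V × V)).card ≤ 2 := card_le_two
    rw [hB]
    omega
  set P := (univ : Finset (V × V)).filter (fun x => G.Adj x.1 x.2) with hP
  have h1 : (P \ B).card ≤ pr (quot G (cmap u v h.ne)) := by
    unfold pr
    refine card_le_card_of_injOn (fun x => (cmap u v h.ne x.1, cmap u v h.ne x.2)) ?_ ?_
    · rintro ⟨a, b⟩ hab
      rw [mem_coe, mem_sdiff, hP, mem_filter, hB] at hab
      obtain ⟨⟨-, hab⟩, hnB⟩ := hab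
      simp only [mem_union, mem_insert, mem_singleton, Prod.mk.injEq, not_or] at hnB
      rw [mem_coe, mem_filter]
      refine ⟨mem_univ _, ?_, a, b, rfl, rfl, hab⟩
      intro heq
      rcases cmap_eq h.ne heq with h1 | ⟨h1, h2⟩ | ⟨h1, h2⟩
      · exact hab.ne h1
      · exact hnB.1.1 ⟨h1, h2⟩
      · exact hnB.1.2 ⟨h1, h2⟩
    · rintro ⟨a, b⟩ hab ⟨a', b'⟩ hab' heq
      rw [mem_coe, mem_sdiff, hP, mem_filter, hB] at hab hab'
      obtain ⟨⟨-, hab⟩, hnB⟩ := hab
      obtain ⟨⟨-, hab'⟩, hnB'⟩ := hab'
      simp only [mem_union, mem_insert, mem_singleton, Prod.mk.injEq, not_or, mem_image,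
        not_exists, not_and, hC, mem_inter, mem_nb] at hnB hnB' hab hab'
      obtain ⟨e1, e2⟩ := Prod.mk.inj heq
      dsimp only at e1 e2
      have hs := hab.symm
      have hs' := hab'.symm
      rcases cmap_eq h.ne e1 with h1 | ⟨h1, h2⟩ | ⟨h1, h2⟩ <;>
        rcases cmap_eq h.ne e2 with h3 | ⟨h3, h4⟩ | ⟨h3, h4⟩
      · rw [h1, h3]
      · subst h1; subst h3; subst h4
        exact absurd rfl (hnB'.2.2 a ⟨hs, hs'⟩ rfl)
      · subst h1; subst h3; subst h4
        exact absurd rfl (hnB.2.2 a ⟨hs', hs⟩ rfl)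
      · subst h1; subst h2; subst h3
        exact absurd rfl (hnB'.2.1 b ⟨hab, hab'⟩ rfl)
      · rw [h1, h3] at hab
        exact absurd hab (G.loopless.irrefl _)
      · exact absurd h3 (hnB.1.1 h1)
      · subst h1; subst h2; subst h3
        exact absurd rfl (hnB.2.1 b ⟨hab', hab⟩ rfl)
      · exact absurd h3 (hnB.1.2 h1)
      · rw [h1, h3] at hab
        exact absurd hab (G.loopless.irrefl _)
  have h2 : P.card ≤ (P \ B).card + B.card := card_le_card_sdiff_add_card
  have h3 : pr G = P.card := rfl
  omega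

lemma pr_quot_le {V W : Type} [Fintype V] [Fintype W] (G : SimpleGraph V) (q : V → W) :
    pr (quot G q) ≤ pr G := by
  unfold pr
  have h1 : (univ : Finset (W × W)).filter (fun x => (quot G q).Adj x.1 x.2) ⊆
      ((univ : Finset (V × V)).filter (fun x => G.Adj x.1 x.2)).image
        (fun x => (q x.1, q x.2)) := by
    rintro ⟨a, b⟩ hab
    rw [mem_filter] at hab
    obtain ⟨-, -, x, y, hx, hy, hxy⟩ := hab
    dsimp only at hx hy
    subst hx; subst hy
    exact mem_image.2 ⟨(x, y), mem_filter.2 ⟨mem_univ _, hxy⟩, rfl⟩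
  exact (card_le_card h1).trans card_image_le

/-- deleting an edge -/
lemma pr_delete {V : Type} [Fintype V] {G : SimpleGraph V} {u v : V} (h : G.Adj u v) :
    pr (G.deleteEdges {s(u, v)}) + 2 = pr G := by
  have h1 : (univ : Finset (V × V)).filter (fun x => G.Adj x.1 x.2) =
      ((univ : Finset (V × V)).filter (fun x => (G.deleteEdges {s(u, v)}).Adj x.1 x.2)) ∪
        {(u, v), (v, u)} := by
    ext ⟨a, b⟩
    simp only [mem_filter, mem_univ, true_and, mem_union, deleteEdges_adj, Set.mem_singleton_iff,
      Sym2.eq_iff, mem_insert, mem_singleton, Prod.mk.injEq]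
    constructor
    · intro h'
      by_cases h2 : (a = u ∧ b = v) ∨ (a = v ∧ b = u)
      · exact Or.inr h2
      · exact Or.inl ⟨h', h2⟩
    · rintro (h' | ⟨rfl, rfl⟩ | ⟨rfl, rfl⟩)
      · exact h'.1
      · exact h
      · exact h.symm
  have h2 : Disjoint ((univ : Finset (V × V)).filter
      (fun x => (G.deleteEdges {s(u, v)}).Adj x.1 x.2)) {(u, v), (v, u)} := by
    rw [Finset.disjoint_left]
    rintro ⟨a, b⟩ h1 h2
    simp only [mem_filter, mem_univ, true_and, deleteEdges_adj, Set.mem_singleton_iff,
      Sym2.eq_iff, mem_insert, mem_singleton, Prod.mk.injEq] at h1 h2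
    exact h1.2 h2
  have h3 : ({(u, v), (v, u)} : Finset (V × V)).card = 2 := by
    rw [card_pair]
    intro h'
    exact h.ne (Prod.mk.inj h').1
  unfold pr
  rw [h1, card_union_of_disjoint h2, h3]
  congr!

/-- deleting an isolated vertex -/
lemma pr_isolated {V : Type} [Fintype V] {G : SimpleGraph V} {v : V} (h : nb G v = ∅) :
    pr (G.induce {x | x ≠ v}) = pr G := by
  unfold pr
  refine card_bij (fun x _ => (x.1.1, x.2.1)) ?_ ?_ ?_
  · rintro ⟨⟨a, ha⟩, ⟨b, hb⟩⟩ hab
    simp only [mem_filter, mem_univ, true_and] at hab ⊢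
    exact hab
  · rintro ⟨⟨a, ha⟩, ⟨b, hb⟩⟩ _ ⟨⟨a', ha'⟩, ⟨b', hb'⟩⟩ _ heq
    simp only [Prod.mk.injEq] at heq
    obtain ⟨rfl, rfl⟩ := heq
    rfl
  · rintro ⟨a, b⟩ hab
    simp only [mem_filter, mem_univ, true_and] at hab
    have ha : a ≠ v := by
      rintro rfl
      have : b ∈ nb G a := mem_nb.2 hab
      rw [h] at this
      exact absurd this (notMem_empty _)
    have hb : b ≠ v := by
      rintro rfl
      have : a ∈ nb G b := mem_nb.2 hab.symm
      rw [h] at this
      exact absurd this (notMem_empty _)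
    exact ⟨(⟨a, ha⟩, ⟨b, hb⟩), by simpa using hab, rfl⟩

/-- **Mader's reduction** -/
theorem mader (K : ℕ) (hK : 1 ≤ K) : ∀ (N : ℕ) (V : Type) [Fintype V] (G : SimpleGraph V),
    Fintype.card V + pr G ≤ N → 0 < Fintype.card V → 2 * K * Fintype.card V ≤ pr G →
    ∃ (A : Type) (_ : Fintype A) (D : SimpleGraph A), IsMinor D G ∧ 0 < Fintype.card A ∧
      Fintype.card A ≤ 2 * K ∧ ∀ a, K ≤ (nb D a).card := by
  intro N
  induction N with
  | zero =>
    intro V _ G h1 h2
    omega
  | succ N ih =>
    intro V _ G hN hV hpr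
    have hVpr : 0 < 2 * K * Fintype.card V := by positivity
    -- there is an edge
    obtain ⟨u0, v0, h0⟩ : ∃ u v, G.Adj u v := by
      by_contra hcon
      push Not at hcon
      have : pr G = 0 := by
        unfold pr
        rw [card_eq_zero, filter_eq_empty_iff]
        rintro ⟨a, b⟩ _
        exact hcon a b
      omega
    have hV2 : 2 ≤ Fintype.card V := by
      have : Nontrivial V := ⟨u0, v0, h0.ne⟩
      exact Fintype.one_lt_card
    by_cases hdeg : ∀ x, 2 * K + 1 ≤ (nb G x).card
    · -- delete an edge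
      have h1 := pr_delete h0
      have h2 : (2 * K + 1) * Fintype.card V ≤ pr G := by
        rw [pr_eq]
        calc (2 * K + 1) * Fintype.card V = ∑ _x : V, (2 * K + 1) := by
              rw [sum_const, card_univ, smul_eq_mul, mul_comm]
          _ ≤ _ := sum_le_sum (fun x _ => hdeg x)
      have h3 : (2 * K + 1) * Fintype.card V = 2 * K * Fintype.card V + Fintype.card V := by ring
      obtain ⟨A, hA, D, hD, h4⟩ := ih V (G.deleteEdges {s(u0, v0)}) (by omega) hV (by omega)
      exact ⟨A, hA, D, minor_trans hD (minor_sub id Function.injective_id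
        (fun u v h => (deleteEdges_le _) h)), h4⟩
    push Not at hdeg
    obtain ⟨x, hx⟩ := hdeg
    by_cases hx0 : nb G x = ∅
    · -- delete an isolated vertex
      have h1 := pr_isolated hx0
      have h2 : Fintype.card {y : V | y ≠ x} + 1 = Fintype.card V := by
        have h3 : Fintype.card {y : V | y ≠ x} = Fintype.card V - 1 := by
          have := Fintype.card_subtype_compl (fun y : V => y = x)
          simp only [Fintype.card_unique] at this
          rw [← this]
          exact Fintype.card_congr (Equiv.refl _)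
        omega
      obtain ⟨A, hA, D, hD, h4⟩ := ih {y : V | y ≠ x} (G.induce {y | y ≠ x}) (by omega) (by omega)
        (by
          have h5 : 2 * K * Fintype.card {y : V | y ≠ x} ≤ 2 * K * Fintype.card V :=
            Nat.mul_le_mul_left _ (by omega)
          omega)
      exact ⟨A, hA, D, minor_trans hD (minor_sub Subtype.val Subtype.val_injective
        (fun u v h => h)), h4⟩
    by_cases hc : ∃ u, G.Adj x u ∧ (nb G x ∩ nb G u).card + 1 ≤ K
    · -- contract an edge
      obtain ⟨u, hxu, hcu⟩ := hc
      have h1 := pr_contract hxu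
      have h2 : Fintype.card {y : V // y ≠ u} + 1 = Fintype.card V := by
        rw [Fintype.card_subtype_compl]
        simp only [Fintype.card_unique]
        omega
      have h5 : 2 * K * Fintype.card V = 2 * K * Fintype.card {y : V // y ≠ u} + 2 * K := by
        rw [← h2]
        ring
      have h6 := pr_quot_le G (cmap x u hxu.ne)
      obtain ⟨A, hA, D, hD, h4⟩ := ih {y : V // y ≠ u} (quot G (cmap x u hxu.ne)) (by omega)
        (by omega) (by omega)
      exact ⟨A, hA, D, minor_trans hD (contract_minor hxu), h4⟩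
    · -- the neighbourhood of `x`
      push Not at hc
      refine ⟨{y : V // y ∈ nb G x}, inferInstance, G.induce {y | y ∈ nb G x}, ?_, ?_, ?_, ?_⟩
      · exact minor_sub Subtype.val Subtype.val_injective (fun u v h => h)
      · rw [Fintype.card_coe]
        exact card_pos.2 (nonempty_iff_ne_empty.2 hx0)
      · rw [Fintype.card_coe]
        omega
      · rintro ⟨a, ha⟩
        have h1 := hc a (mem_nb.1 ha)
        have h2 : (nb G x ∩ nb G a).card ≤
            (nb (G.induce {y | y ∈ nb G x}) ⟨a, ha⟩).card := by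
          have h3 : (nb G x ∩ nb G a) ⊆
              (nb (G.induce {y | y ∈ nb G x}) ⟨a, ha⟩).image Subtype.val := by
            intro y hy
            rw [mem_inter] at hy
            rw [mem_image]
            have h4 : G.Adj a y := mem_nb.1 hy.2
            refine ⟨⟨y, hy.1⟩, ?_, rfl⟩
            rw [mem_nb]
            exact h4
          exact (card_le_card h3).trans card_image_le
        omega

end Pool.Agent.R34.FH
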