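import Mathlib
import Pool.Agent.R34.FH.Mader

/-!
In a graph on at most `2 K` vertices with all degrees at least `K` there is a set `A` which is
robustly connected by short paths.
-/

set_option autoImplicit false
set_option linter.unusedSectionVars false

namespace Pool.Agent.R34.FH

open SimpleGraph Finset Classical
open Pool.Agent.TH507.Host Pool.Agent.R34.Ident Pool.Agent.W126.Split

lemma conn_chain {V : Type} [Fintype V] {D : SimpleGraph V} : ∀ l : List V,
    List.IsChain (fun a b => a = b ∨ D.Adj a b) l → Conn D l.toFinset := by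
  intro l
  induction l with
  | nil =>
    intro _ u hu
    simp at hu
  | cons a l ih =>
    intro h
    cases l with
    | nil =>
      rw [List.toFinset_cons, List.toFinset_nil, insert_empty_eq]
      exact conn_singleton a
    | cons b l =>
      rw [List.isChain_cons_cons] at h
      have h1 := ih h.2
      rcases h.1 with rfl | hab
      · have : (a :: a :: l).toFinset = (a :: l).toFinset := by
          simp
        rw [this]
        exact h1
      · rw [List.toFinset_cons]
        exact Pool.Agent.H362SP.conn_insert h1 (by simp) hab.symm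

/-- `x` and `y` can be joined inside `A` by a path with at most six vertices avoiding `F` -/
def Link {V : Type} [Fintype V] (D : SimpleGraph V) (A F : Finset V) (x y : V) : Prop :=
  ∃ Q : Finset V, Q ⊆ A ∧ Disjoint Q F ∧ x ∈ Q ∧ y ∈ Q ∧ Q.card ≤ 6 ∧ Conn D Q

lemma link_chain {V : Type} [Fintype V] {D : SimpleGraph V} {A F : Finset V} {x y : V}
    (l : List V) (hl : List.IsChain (fun a b => a = b ∨ D.Adj a b) l) (hx : x ∈ l) (hy : y ∈ l)
    (hlen : l.length ≤ 6) (hA : ∀ z ∈ l, z ∈ A) (hF : ∀ z ∈ l, z ∉ F) : Link D A F x y := by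
  refine ⟨l.toFinset, ?_, ?_, ?_, ?_, ?_, conn_chain l hl⟩
  · intro z hz
    exact hA z (List.mem_toFinset.1 hz)
  · rw [Finset.disjoint_left]
    intro z hz
    exact hF z (List.mem_toFinset.1 hz)
  · exact List.mem_toFinset.2 hx
  · exact List.mem_toFinset.2 hy
  · exact (List.toFinset_card_le l).trans hlen

/-- a good host -/
structure Host {V : Type} [Fintype V] (D : SimpleGraph V) (A : Finset V) (K m : ℕ) : Prop where
  size : K ≤ 2 * A.card
  deg : ∀ y ∈ A, 9 * A.card ≤ 20 * (nb D y ∩ A).card
  link : ∀ F : Finset V, F.card ≤ m → ∀ x ∈ A, ∀ y ∈ A, x ∉ F → y ∉ F → Link D A F x y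

/-- the case of a robustly connected graph -/
lemma host_one {V : Type} [Fintype V] {D : SimpleGraph V} {K m : ℕ}
    (hpos : 0 < Fintype.card V) (hcard : Fintype.card V ≤ 2 * K) (hdeg : ∀ a, K ≤ (nb D a).card) (hm : 50 * m ≤ K)
    (hC : ∀ F X : Finset V, F.card ≤ m → X.Nonempty → Disjoint X F → (∃ y, y ∉ X ∧ y ∉ F) →
      ∃ p ∈ X, ∃ q, q ∉ X ∧ q ∉ F ∧ D.Adj p q) : Host D univ K m := by
  have hV : K ≤ Fintype.card V := by
    obtain ⟨a⟩ : Nonempty V := Fintype.card_pos_iff.1 hpos
    have h1 := hdeg a
    have h2 := card_le_univ (nb D a)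
    omega
  refine ⟨by rw [card_univ]; omega, ?_, ?_⟩
  · intro y _
    rw [card_univ, inter_univ]
    have := hdeg y
    omega
  · intro F hF x _ y _ hx hy
    set X1 := insert x (nb D x) \ F with hX1
    set Y1 := insert y (nb D y) \ F with hY1
    have hself : ∀ z, z ∉ nb D z := fun z hz => D.loopless.irrefl _ (mem_nb.1 hz)
    have hX1c : K + 1 ≤ X1.card + F.card := by
      have h1 := card_insert_of_notMem (hself x)
      have h2 := hdeg x
      have h3 : (insert x (nb D x)).card ≤ X1.card + F.card := card_le_card_sdiff_add_card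
      omega
    have hY1c : K + 1 ≤ Y1.card + F.card := by
      have h1 := card_insert_of_notMem (hself y)
      have h2 := hdeg y
      have h3 : (insert y (nb D y)).card ≤ Y1.card + F.card := card_le_card_sdiff_add_card
      omega
    have hxX : x ∈ X1 := mem_sdiff.2 ⟨mem_insert_self _ _, hx⟩
    have hyY : y ∈ Y1 := mem_sdiff.2 ⟨mem_insert_self _ _, hy⟩
    have hX1' : ∀ z ∈ X1, (x = z ∨ D.Adj x z) ∧ z ∉ F := by
      intro z hz
      rw [hX1, mem_sdiff, mem_insert, mem_nb] at hz
      exact ⟨hz.1.imp (fun h => h.symm) id, hz.2⟩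
    have hY1' : ∀ z ∈ Y1, (z = y ∨ D.Adj z y) ∧ z ∉ F := by
      intro z hz
      rw [hY1, mem_sdiff, mem_insert, mem_nb] at hz
      exact ⟨hz.1.imp id (fun h => h.symm), hz.2⟩
    by_cases hXY : ∃ z, z ∈ X1 ∧ z ∈ Y1
    · obtain ⟨z, hz1, hz2⟩ := hXY
      refine link_chain [x, z, y] ?_ (by simp) (by simp) (by simp) (fun _ _ => mem_univ _) ?_
      · simp only [List.isChain_cons_cons, List.isChain_singleton, and_true]
        exact ⟨(hX1' z hz1).1, (hY1' z hz2).1⟩
      · intro w hw
        simp only [List.mem_cons, List.not_mem_nil, or_false] at hw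
        rcases hw with rfl | rfl | rfl
        · exact hx
        · exact (hX1' _ hz1).2
        · exact hy
    by_cases hE : ∃ a ∈ X1, ∃ b ∈ Y1, D.Adj a b
    · obtain ⟨a, ha, b, hb, hab⟩ := hE
      refine link_chain [x, a, b, y] ?_ (by simp) (by simp) (by simp) (fun _ _ => mem_univ _) ?_
      · simp only [List.isChain_cons_cons, List.isChain_singleton, and_true]
        exact ⟨(hX1' a ha).1, Or.inr hab, (hY1' b hb).1⟩
      · intro w hw
        simp only [List.mem_cons, List.not_mem_nil, or_false] at hw
        rcases hw with rfl | rfl | rfl | rfl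
        · exact hx
        · exact (hX1' _ ha).2
        · exact (hY1' _ hb).2
        · exact hy
    push Not at hXY hE
    set Z := ((univ \ F) \ X1) \ Y1 with hZ
    have hZc : Z.card ≤ m := by
      have hd1 : Disjoint F X1 := by
        rw [Finset.disjoint_left]
        intro z hz hz'
        exact (hX1' z hz').2 hz
      have hd2 : Disjoint (F ∪ X1) Y1 := by
        rw [Finset.disjoint_left]
        intro z hz hz'
        rcases mem_union.1 hz with h | h
        · exact (hY1' z hz').2 h
        · exact hXY z h hz'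
      have hd3 : Disjoint (F ∪ X1 ∪ Y1) Z := by
        rw [Finset.disjoint_left]
        intro z hz hz'
        rw [hZ, mem_sdiff, mem_sdiff, mem_sdiff] at hz'
        rw [mem_union, mem_union] at hz
        tauto
      have h1 := card_le_univ (F ∪ X1 ∪ Y1 ∪ Z)
      rw [card_union_of_disjoint hd3, card_union_of_disjoint hd2, card_union_of_disjoint hd1] at h1
      omega
    have hZn : ∀ z ∈ Z, ∃ w, (w ∈ X1 ∨ w ∈ Y1) ∧ D.Adj z w := by
      intro z hz
      by_contra hcon
      push Not at hcon
      have hsub : nb D z ⊆ F ∪ Z := by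
        intro w hw
        rw [mem_nb] at hw
        rw [mem_union]
        by_cases hwF : w ∈ F
        · exact Or.inl hwF
        · right
          rw [hZ, mem_sdiff, mem_sdiff, mem_sdiff]
          refine ⟨⟨⟨mem_univ _, hwF⟩, fun h => ?_⟩, fun h => ?_⟩
          · exact hcon w (Or.inl h) hw
          · exact hcon w (Or.inr h) hw
      have h1 := card_le_card hsub
      have h2 := card_union_le F Z
      have h3 := hdeg z
      omega
    set ZX := Z.filter (fun z => ∃ a ∈ X1, D.Adj a z) with hZX
    obtain ⟨p, hp, q, hq, hqF, hpq⟩ := hC F (X1 ∪ ZX) hF ⟨x, mem_union_left _ hxX⟩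
      (by
        rw [Finset.disjoint_left]
        intro z hz hz'
        rcases mem_union.1 hz with h | h
        · exact (hX1' z h).2 hz'
        · have h1 := (mem_filter.1 h).1
          rw [hZ, mem_sdiff, mem_sdiff, mem_sdiff] at h1
          exact h1.1.1.2 hz')
      ⟨y, fun h => by
        rcases mem_union.1 h with h | h
        · exact hXY y h hyY
        · have h1 := (mem_filter.1 h).1
          rw [hZ, mem_sdiff] at h1
          exact h1.2 hyY, hy⟩
    rw [mem_union, not_or] at hq
    have hqcase : q ∈ Y1 ∨ q ∈ Z := by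
      by_cases h : q ∈ Y1
      · exact Or.inl h
      · right
        rw [hZ, mem_sdiff, mem_sdiff, mem_sdiff]
        exact ⟨⟨⟨mem_univ _, hqF⟩, hq.1⟩, h⟩
    rcases mem_union.1 hp with hpX | hpZ
    · rcases hqcase with hqY | hqZ
      · exact absurd hpq (hE p hpX q hqY)
      · exact absurd (mem_filter.2 ⟨hqZ, p, hpX, hpq⟩) hq.2
    · obtain ⟨hpZ', a, ha, hap⟩ := mem_filter.1 hpZ
      have hpF : p ∉ F := by
        rw [hZ, mem_sdiff, mem_sdiff, mem_sdiff] at hpZ'
        exact hpZ'.1.1.2
      rcases hqcase with hqY | hqZ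
      · refine link_chain [x, a, p, q, y] ?_ (by simp) (by simp) (by simp)
          (fun _ _ => mem_univ _) ?_
        · simp only [List.isChain_cons_cons, List.isChain_singleton, and_true]
          exact ⟨(hX1' a ha).1, Or.inr hap, Or.inr hpq, (hY1' q hqY).1⟩
        · intro w hw
          simp only [List.mem_cons, List.not_mem_nil, or_false] at hw
          rcases hw with rfl | rfl | rfl | rfl | rfl
          · exact hx
          · exact (hX1' _ ha).2
          · exact hpF
          · exact hqF
          · exact hy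
      · obtain ⟨b, hb, hqb⟩ := hZn q hqZ
        have hbY : b ∈ Y1 := by
          rcases hb with h | h
          · exact absurd (mem_filter.2 ⟨hqZ, b, h, hqb.symm⟩) hq.2
          · exact h
        refine link_chain [x, a, p, q, b, y] ?_ (by simp) (by simp) (by simp)
          (fun _ _ => mem_univ _) ?_
        · simp only [List.isChain_cons_cons, List.isChain_singleton, and_true]
          exact ⟨(hX1' a ha).1, Or.inr hap, Or.inr hpq, Or.inr hqb, (hY1' b hbY).1⟩
        · intro w hw
          simp only [List.mem_cons, List.not_mem_nil, or_false] at hw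
          rcases hw with rfl | rfl | rfl | rfl | rfl | rfl
          · exact hx
          · exact (hX1' _ ha).2
          · exact hpF
          · exact hqF
          · exact (hY1' _ hbY).2
          · exact hy

/-- the case of a small separator -/
lemma host_two {V : Type} [Fintype V] {D : SimpleGraph V} {K m : ℕ}
    (hcard : Fintype.card V ≤ 2 * K) (hdeg : ∀ a, K ≤ (nb D a).card) (hm : 50 * m ≤ K)
    {F X : Finset V} (hF : F.card ≤ m) (hX : X.Nonempty) (hXF : Disjoint X F)
    (hy : ∃ y, y ∉ X ∧ y ∉ F) (hno : ∀ p ∈ X, ∀ q, q ∉ X → q ∉ F → ¬ D.Adj p q) :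
    Host D X K m := by
  obtain ⟨y, hyX, hyF⟩ := hy
  have hself : ∀ z, z ∉ nb D z := fun z hz => D.loopless.irrefl _ (mem_nb.1 hz)
  -- the other side
  have hYc : K + 1 ≤ ((univ \ F) \ X).card + F.card := by
    have hsub : insert y (nb D y) ⊆ ((univ \ F) \ X) ∪ F := by
      intro z hz
      rw [mem_union, mem_sdiff, mem_sdiff]
      by_cases hzF : z ∈ F
      · exact Or.inr hzF
      · left
        refine ⟨⟨mem_univ _, hzF⟩, fun hzX => ?_⟩
        rcases mem_insert.1 hz with rfl | h
        · exact hyX hzX
        · exact hno z hzX y hyX hyF (mem_nb.1 h).symm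
    have h1 := card_le_card hsub
    have h2 := card_union_le ((univ \ F) \ X) F
    have h3 := card_insert_of_notMem (hself y)
    have h4 := hdeg y
    omega
  have htot : ((univ \ F) \ X).card + F.card + X.card = Fintype.card V := by
    have h1 : X ⊆ univ \ F := by
      intro z hz
      exact mem_sdiff.2 ⟨mem_univ _, fun h => Finset.disjoint_left.1 hXF hz h⟩
    have h2 := card_sdiff_add_card_eq_card h1
    have h3 := card_sdiff_add_card_eq_card (subset_univ F)
    rw [card_univ] at h3
    omega
  have hin : ∀ x ∈ X, K ≤ (nb D x ∩ X).card + F.card := by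
    intro x hx
    have hsub : nb D x ⊆ (nb D x ∩ X) ∪ F := by
      intro z hz
      rw [mem_union, mem_inter]
      by_cases hzF : z ∈ F
      · exact Or.inr hzF
      · left
        refine ⟨hz, ?_⟩
        by_contra hzX
        exact hno x hx z hzX hzF (mem_nb.1 hz)
    have h1 := card_le_card hsub
    have h2 := card_union_le (nb D x ∩ X) F
    have h3 := hdeg x
    omega
  have hXc : X.card + 1 ≤ K := by omega
  have hXK : K ≤ X.card + m := by
    obtain ⟨x, hx⟩ := hX
    have h1 := hin x hx
    have h2 : (nb D x ∩ X).card ≤ X.card := card_le_card inter_subset_right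
    omega
  refine ⟨by omega, ?_, ?_⟩
  · intro x hx
    have := hin x hx
    omega
  · intro F' hF' x hx y hy hxF hyF'
    by_cases hxy : x = y
    · subst hxy
      exact link_chain [x] (by simp) (by simp) (by simp) (by simp)
        (by intro z hz; rw [List.mem_singleton] at hz; rwa [hz])
        (by intro z hz; rw [List.mem_singleton] at hz; rwa [hz])
    obtain ⟨z, hz⟩ : (((nb D x ∩ X) ∩ (nb D y ∩ X)) \ F').Nonempty := by
      rw [← card_pos]
      have h1 := hin x hx
      have h2 := hin y hy
      have h3 := card_union_add_card_inter (nb D x ∩ X) (nb D y ∩ X)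
      have h4 : ((nb D x ∩ X) ∪ (nb D y ∩ X)).card ≤ X.card :=
        card_le_card (union_subset inter_subset_right inter_subset_right)
      have h5 : ((nb D x ∩ X) ∩ (nb D y ∩ X)).card ≤
          (((nb D x ∩ X) ∩ (nb D y ∩ X)) \ F').card + F'.card := card_le_card_sdiff_add_card
      omega
    rw [mem_sdiff, mem_inter, mem_inter, mem_inter, mem_nb, mem_nb] at hz
    obtain ⟨⟨⟨hxz, hzX⟩, hyz, -⟩, hzF⟩ := hz
    refine link_chain [x, z, y] ?_ (by simp) (by simp) (by simp) ?_ ?_
    · simp only [List.isChain_cons_cons, List.isChain_singleton, and_true]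
      exact ⟨Or.inr hxz, Or.inr hyz.symm⟩
    · intro w hw
      simp only [List.mem_cons, List.not_mem_nil, or_false] at hw
      rcases hw with rfl | rfl | rfl
      · exact hx
      · exact hzX
      · exact hy
    · intro w hw
      simp only [List.mem_cons, List.not_mem_nil, or_false] at hw
      rcases hw with rfl | rfl | rfl
      · exact hxF
      · exact hzF
      · exact hyF'

/-- **the host lemma** -/
theorem exists_host {V : Type} [Fintype V] {D : SimpleGraph V} {K m : ℕ} (hK : 1 ≤ K)
    (hpos : 0 < Fintype.card V) (hcard : Fintype.card V ≤ 2 * K) (hdeg : ∀ a, K ≤ (nb D a).card)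
    (hm : 50 * m ≤ K) : ∃ A : Finset V, Host D A K m := by
  by_cases hC : ∀ F X : Finset V, F.card ≤ m → X.Nonempty → Disjoint X F →
      (∃ y, y ∉ X ∧ y ∉ F) → ∃ p ∈ X, ∃ q, q ∉ X ∧ q ∉ F ∧ D.Adj p q
  · exact ⟨univ, host_one hpos hcard hdeg hm hC⟩
  · push Not at hC
    obtain ⟨F, X, h1, h2, h3, h4, h5⟩ := hC
    exact ⟨X, host_two hcard hdeg hm h1 h2 h3 h4 h5⟩

end Pool.Agent.R34.FH
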