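import Mathlib
import Pool.Agent.R34.FH.Host

/-!
Weighted embedding of minors into a host.
-/

set_option autoImplicit false
set_option linter.unusedSectionVars false

namespace Pool.Agent.R34.FH

open SimpleGraph Finset Classical
open Pool.Agent.TH507.Host Pool.Agent.R34.Ident Pool.Agent.W126.Split

/-- the vertices of `A` without neighbour in `T` -/
noncomputable def non {V : Type} [Fintype V] (D : SimpleGraph V) (A T : Finset V) : Finset V :=
  A.filter (fun z => ∀ u ∈ T, ¬ D.Adj z u)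

lemma non_anti {V : Type} [Fintype V] {D : SimpleGraph V} {A S T : Finset V} (h : S ⊆ T) :
    non D A T ⊆ non D A S := by
  intro z hz
  rw [non, mem_filter] at hz ⊢
  exact ⟨hz.1, fun u hu => hz.2 u (h hu)⟩

/-- the union of connected sets with a common vertex -/
lemma conn_biUnion {V ι : Type} [Fintype V] {D : SimpleGraph V} (I : Finset ι) (Q : ι → Finset V)
    (x : V) (hx : ∀ i ∈ I, x ∈ Q i) (hQ : ∀ i ∈ I, Conn D (Q i)) : Conn D (I.biUnion Q) := by
  have key : ∀ u ∈ I.biUnion Q, ∃ p : D.Walk u x, ∀ z ∈ p.support, z ∈ I.biUnion Q := by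
    intro u hu
    obtain ⟨i, hi, hu⟩ := mem_biUnion.1 hu
    obtain ⟨p, hp⟩ := hQ i hi u hu x (hx i hi)
    exact ⟨p, fun z hz => mem_biUnion.2 ⟨i, hi, hp z hz⟩⟩
  intro u hu v hv
  obtain ⟨p, hp⟩ := key u hu
  obtain ⟨q, hq⟩ := key v hv
  refine ⟨p.append q.reverse, fun z hz => ?_⟩
  rw [Walk.mem_support_append_iff, Walk.support_reverse, List.mem_reverse] at hz
  exact hz.elim (hp z) (hq z)

/-- choosing a core -/
lemma exists_core {V : Type} [Fintype V] {D : SimpleGraph V} {A : Finset V} {K m : ℕ}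
    (hA : Host D A K m) (hK : 1 ≤ K) (hm : 50 * m ≤ K) {U : Finset V} (hU : U.card ≤ m) {w : ℕ}
    {ι : Type} (J : Finset ι) (B : ι → Finset V)
    (hB : ∑ j ∈ J, (((B j).card : ℝ) / ((A \ U).card : ℝ)) ^ w ≤ 1 / 4) :
    ∃ f : Fin w → V, (∀ i, f i ∈ A \ U) ∧
      ((non D A (univ.image f)).card : ℝ) ≤ 2 * (3 / 5) ^ w * A.card ∧
      ∀ j ∈ J, ∃ i, f i ∉ B j := by
  set R := A \ U with hR
  have hsz := hA.size
  have hAc : 0 < A.card := by omega
  have hRc : A.card ≤ R.card + m := by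
    have : A.card ≤ R.card + U.card := card_le_card_sdiff_add_card
    omega
  have hRpos : 0 < R.card := by omega
  have hRposR : (0 : ℝ) < R.card := by exact_mod_cast hRpos
  have hAposR : (0 : ℝ) < A.card := by exact_mod_cast hAc
  set Ω := Fintype.piFinset (fun _ : Fin w => R) with hΩ
  have hΩc : (Ω.card : ℝ) = (R.card : ℝ) ^ w := by
    rw [hΩ, Fintype.card_piFinset]
    simp
  have hΩpos : (0 : ℝ) < Ω.card := by rw [hΩc]; positivity
  -- vertices missed by the core
  have hmiss : ∀ y ∈ A, ((Ω.filter (fun f => ∀ i, ¬ D.Adj y (f i))).card : ℝ) ≤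
      (3 / 5) ^ w * Ω.card := by
    intro y hy
    have h1 : Ω.filter (fun f => ∀ i, ¬ D.Adj y (f i)) =
        Fintype.piFinset (fun _ : Fin w => R \ nb D y) := by
      ext f
      simp only [hΩ, mem_filter, Fintype.mem_piFinset, mem_sdiff, mem_nb]
      constructor
      · rintro ⟨h1, h2⟩ i
        exact ⟨h1 i, h2 i⟩
      · intro h
        exact ⟨fun i => (h i).1, fun i => (h i).2⟩
    rw [h1, Fintype.card_piFinset, hΩc]
    simp only [prod_const, card_univ, Fintype.card_fin, Nat.cast_pow]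
    rw [← mul_pow]
    apply pow_le_pow_left₀ (by positivity)
    have h2 := hA.deg y hy
    have h3 : (nb D y ∩ A).card ≤ (nb D y ∩ R).card + m := by
      have h4 : nb D y ∩ A ⊆ (nb D y ∩ R) ∪ U := by
        intro z hz
        rw [mem_inter] at hz
        rw [mem_union, mem_inter, hR, mem_sdiff]
        by_cases hzU : z ∈ U
        · exact Or.inr hzU
        · exact Or.inl ⟨hz.1, hz.2, hzU⟩
      have h5 := card_le_card h4
      have h6 := card_union_le (nb D y ∩ R) U
      omega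
    have h4 : (R \ nb D y).card + (nb D y ∩ R).card = R.card := by
      rw [inter_comm]
      exact card_sdiff_add_card_inter R (nb D y)
    have h5 : R.card ≤ A.card := card_le_card sdiff_subset
    have h6 : 5 * (R \ nb D y).card ≤ 3 * R.card := by omega
    have h7 : (5 : ℝ) * ((R \ nb D y).card : ℝ) ≤ 3 * (R.card : ℝ) := by exact_mod_cast h6
    linarith
  have hsum : ∑ f ∈ Ω, ((non D A (univ.image f)).card : ℝ) ≤ A.card * ((3 / 5) ^ w * Ω.card) := by
    have h1 : ∀ f : Fin w → V, ((non D A (univ.image f)).card : ℝ) =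
        ∑ y ∈ A, if (∀ i, ¬ D.Adj y (f i)) then (1 : ℝ) else 0 := by
      intro f
      rw [non, card_filter]
      push_cast
      apply sum_congr rfl
      intro y _
      congr 1
      simp
    simp only [h1]
    rw [sum_comm]
    calc ∑ y ∈ A, ∑ f ∈ Ω, (if (∀ i, ¬ D.Adj y (f i)) then (1 : ℝ) else 0)
        = ∑ y ∈ A, ((Ω.filter (fun f => ∀ i, ¬ D.Adj y (f i))).card : ℝ) := by
          apply sum_congr rfl
          intro y _
          rw [card_filter]
          push_cast
          rfl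
      _ ≤ ∑ _y ∈ A, (3 / 5) ^ w * (Ω.card : ℝ) := sum_le_sum hmiss
      _ = _ := by rw [sum_const, nsmul_eq_mul]
  -- the bad cores
  set Bad1 := Ω.filter (fun f => 2 * (3 / 5) ^ w * (A.card : ℝ) < (non D A (univ.image f)).card)
    with hBad1
  have h1 : (Bad1.card : ℝ) * 2 ≤ Ω.card := by
    have h2 : (Bad1.card : ℝ) * (2 * (3 / 5) ^ w * A.card) ≤ A.card * ((3 / 5) ^ w * Ω.card) := by
      calc (Bad1.card : ℝ) * (2 * (3 / 5) ^ w * A.card)
          = ∑ _f ∈ Bad1, (2 * (3 / 5) ^ w * (A.card : ℝ)) := by rw [sum_const, nsmul_eq_mul]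
        _ ≤ ∑ f ∈ Bad1, ((non D A (univ.image f)).card : ℝ) :=
            sum_le_sum (fun f hf => (mem_filter.1 hf).2.le)
        _ ≤ ∑ f ∈ Ω, ((non D A (univ.image f)).card : ℝ) :=
            sum_le_sum_of_subset_of_nonneg (filter_subset _ _) (fun _ _ _ => by positivity)
        _ ≤ _ := hsum
    have h3 : (0 : ℝ) < (3 / 5) ^ w * A.card := by positivity
    have h4 : ((Bad1.card : ℝ) * 2) * ((3 / 5) ^ w * A.card) ≤ Ω.card * ((3 / 5) ^ w * A.card) := by
      calc ((Bad1.card : ℝ) * 2) * ((3 / 5) ^ w * A.card)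
          = (Bad1.card : ℝ) * (2 * (3 / 5) ^ w * A.card) := by ring
        _ ≤ A.card * ((3 / 5) ^ w * Ω.card) := h2
        _ = _ := by ring
    exact le_of_mul_le_mul_right h4 h3
  set Bad2 := J.biUnion (fun j => Ω.filter (fun f => ∀ i, f i ∈ B j)) with hBad2
  have h2 : (Bad2.card : ℝ) ≤ 1 / 4 * Ω.card := by
    have h3 : (Bad2.card : ℝ) ≤ ∑ j ∈ J, ((Ω.filter (fun f => ∀ i, f i ∈ B j)).card : ℝ) := by
      have := card_biUnion_le (s := J) (t := fun j => Ω.filter (fun f => ∀ i, f i ∈ B j))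
      exact_mod_cast this
    have h4 : ∀ j ∈ J, ((Ω.filter (fun f => ∀ i, f i ∈ B j)).card : ℝ) ≤
        (((B j).card : ℝ) / (R.card : ℝ)) ^ w * Ω.card := by
      intro j _
      have h5 : Ω.filter (fun f => ∀ i, f i ∈ B j) ⊆ Fintype.piFinset (fun _ : Fin w => B j) := by
        intro f hf
        rw [Fintype.mem_piFinset]
        exact (mem_filter.1 hf).2
      have h6 := card_le_card h5
      rw [Fintype.card_piFinset] at h6
      simp only [prod_const, card_univ, Fintype.card_fin] at h6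
      rw [hΩc, ← mul_pow, div_mul_cancel₀ _ hRposR.ne']
      exact_mod_cast h6
    calc (Bad2.card : ℝ) ≤ ∑ j ∈ J, ((Ω.filter (fun f => ∀ i, f i ∈ B j)).card : ℝ) := h3
      _ ≤ ∑ j ∈ J, (((B j).card : ℝ) / (R.card : ℝ)) ^ w * Ω.card := sum_le_sum h4
      _ = (∑ j ∈ J, (((B j).card : ℝ) / (R.card : ℝ)) ^ w) * Ω.card := by rw [sum_mul]
      _ ≤ _ := mul_le_mul_of_nonneg_right hB hΩpos.le
  have h3 : ((Bad1 ∪ Bad2).card : ℝ) < Ω.card := by
    have h4 : ((Bad1 ∪ Bad2).card : ℝ) ≤ Bad1.card + Bad2.card := by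
      exact_mod_cast card_union_le _ _
    linarith
  obtain ⟨f, hf, hfn⟩ : ∃ f ∈ Ω, f ∉ Bad1 ∪ Bad2 := by
    by_contra hcon
    push Not at hcon
    have := card_le_card (show Ω ⊆ Bad1 ∪ Bad2 from hcon)
    have h5 : (Ω.card : ℝ) ≤ (Bad1 ∪ Bad2).card := by exact_mod_cast this
    linarith
  rw [mem_union, not_or] at hfn
  refine ⟨f, fun i => (Fintype.mem_piFinset.1 hf) i, ?_, ?_⟩
  · by_contra hcon
    exact hfn.1 (mem_filter.2 ⟨hf, not_le.1 hcon⟩)
  · intro j hj
    by_contra hcon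
    push Not at hcon
    exact hfn.2 (mem_biUnion.2 ⟨j, hj, mem_filter.2 ⟨hf, hcon⟩⟩)

/-- choosing a connected set -/
lemma exists_branch {V : Type} [Fintype V] {D : SimpleGraph V} {A : Finset V} {K m : ℕ}
    (hA : Host D A K m) (hK : 1 ≤ K) (hm : 50 * m ≤ K) {U : Finset V} (hU : U.card ≤ m) {w : ℕ}
    (hw : 0 < w) {ι : Type} (J : Finset ι) (T : ι → Finset V) (u : ι → ℕ)
    (hT : ∀ j ∈ J, ((non D A (T j)).card : ℝ) ≤ 2 * (3 / 5) ^ (u j) * A.card)
    (hu : ∀ j ∈ J, 3 ≤ u j) (hB : ∑ j ∈ J, ((4 / 5 : ℝ) ^ (u j)) ^ w ≤ 1 / 4) :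
    ∃ S : Finset V, S.Nonempty ∧ S ⊆ A ∧ Disjoint S U ∧ S.card ≤ 6 * w ∧ Conn D S ∧
      ((non D A S).card : ℝ) ≤ 2 * (3 / 5) ^ w * A.card ∧
      ∀ j ∈ J, ∃ x ∈ T j, ∃ y ∈ S, D.Adj x y := by
  have hsz := hA.size
  have hAc : 0 < A.card := by omega
  have hRc : A.card ≤ (A \ U).card + m := by
    have : A.card ≤ (A \ U).card + U.card := card_le_card_sdiff_add_card
    omega
  have hR : 24 * A.card ≤ 25 * (A \ U).card := by omega
  have hRpos : 0 < (A \ U).card := by omega
  have hRposR : (0 : ℝ) < (A \ U).card := by exact_mod_cast hRpos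
  have hRR : (24 : ℝ) * A.card ≤ 25 * (A \ U).card := by exact_mod_cast hR
  obtain ⟨f, hf, hnon, hJ⟩ := exists_core hA hK hm hU J (fun j => non D A (T j)) (w := w) (by
    refine le_trans (sum_le_sum ?_) hB
    intro j hj
    apply pow_le_pow_left₀ (by positivity)
    rw [div_le_iff₀ hRposR]
    have h1 := hT j hj
    have h3 : (3 / 4 : ℝ) ^ (u j) ≤ (3 / 4) ^ 3 :=
      pow_le_pow_of_le_one (by norm_num) (by norm_num) (hu j hj)
    have h4 : (3 / 5 : ℝ) ^ (u j) = (3 / 4) ^ (u j) * (4 / 5) ^ (u j) := by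
      rw [← mul_pow]
      norm_num
    have h5 : (0 : ℝ) < (4 / 5) ^ (u j) := by positivity
    calc ((non D A (T j)).card : ℝ) ≤ 2 * (3 / 5) ^ (u j) * A.card := h1
      _ = (4 / 5) ^ (u j) * ((3 / 4) ^ (u j) * (2 * A.card)) := by rw [h4]; ring
      _ ≤ (4 / 5) ^ (u j) * ((3 / 4) ^ 3 * (2 * A.card)) := by gcongr
      _ ≤ (4 / 5) ^ (u j) * (A \ U).card := by
          apply mul_le_mul_of_nonneg_left _ h5.le
          linarith)
  have hlink : ∀ i : Fin w, Link D A U (f ⟨0, hw⟩) (f i) := by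
    intro i
    have h1 := mem_sdiff.1 (hf ⟨0, hw⟩)
    have h2 := mem_sdiff.1 (hf i)
    exact hA.link U hU _ h1.1 _ h2.1 h1.2 h2.2
  choose Q hQA hQU hQ0 hQi hQc hQconn using hlink
  have hsub : univ.image f ⊆ univ.biUnion Q := by
    intro z hz
    obtain ⟨i, -, rfl⟩ := mem_image.1 hz
    exact mem_biUnion.2 ⟨i, mem_univ _, hQi i⟩
  refine ⟨univ.biUnion Q, ⟨f ⟨0, hw⟩, mem_biUnion.2 ⟨⟨0, hw⟩, mem_univ _, hQ0 _⟩⟩, ?_, ?_, ?_, ?_,
    ?_, ?_⟩
  · intro z hz
    obtain ⟨i, -, hz⟩ := mem_biUnion.1 hz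
    exact hQA i hz
  · rw [disjoint_biUnion_left]
    exact fun i _ => hQU i
  · calc (univ.biUnion Q).card ≤ ∑ i : Fin w, (Q i).card := card_biUnion_le
      _ ≤ ∑ _i : Fin w, 6 := sum_le_sum (fun i _ => hQc i)
      _ = 6 * w := by rw [sum_const, card_univ, Fintype.card_fin, smul_eq_mul, mul_comm]
  · exact conn_biUnion univ Q (f ⟨0, hw⟩) (fun i _ => hQ0 i) (fun i _ => hQconn i)
  · refine le_trans ?_ hnon
    exact_mod_cast card_le_card (non_anti hsub)
  · intro j hj
    obtain ⟨i, hi⟩ := hJ j hj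
    rw [non, mem_filter, not_and] at hi
    have h1 := hi (mem_sdiff.1 (hf i)).1
    push Not at h1
    obtain ⟨x, hx, hadj⟩ := h1
    exact ⟨x, hx, f i, mem_biUnion.2 ⟨i, mem_univ _, hQi i⟩, hadj.symm⟩

/-- **the weighted embedding lemma** -/
theorem embed {V : Type} [Fintype V] {D : SimpleGraph V} {A : Finset V} {K m : ℕ}
    (hA : Host D A K m) (hK : 1 ≤ K) (hm : 50 * m ≤ K) {h : ℕ} (H : SimpleGraph (Fin h))
    (w : Fin h → ℕ) (hw : ∀ x, 3 ≤ w x) (hsum : 6 * ∑ x, w x ≤ m)
    (hW : ∀ x, ∑ y ∈ univ.filter (fun y => y < x ∧ H.Adj y x), ((4 / 5 : ℝ) ^ (w y)) ^ (w x) ≤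
      1 / 4) : IsMinor H D := by
  have main : ∀ k, k ≤ h → ∃ T : Fin h → Finset V,
      (∀ i, i.val < k → (T i).Nonempty ∧ (T i).card ≤ 6 * w i ∧ Conn D (T i) ∧
        ((non D A (T i)).card : ℝ) ≤ 2 * (3 / 5) ^ (w i) * A.card) ∧
      (∀ i j, i.val < k → j.val < k → i ≠ j → Disjoint (T i) (T j)) ∧
      (∀ i j, i.val < k → j.val < k → i < j → H.Adj i j → ∃ x ∈ T i, ∃ y ∈ T j, D.Adj x y) := by
    intro k
    induction k with
    | zero =>
      intro _
      exact ⟨fun _ => ∅, fun i hi => absurd hi (by omega), fun i j hi => absurd hi (by omega),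
        fun i j hi => absurd hi (by omega)⟩
    | succ k ih =>
      intro hk
      obtain ⟨T, h1, h2, h3⟩ := ih (by omega)
      set x : Fin h := ⟨k, by omega⟩ with hx
      set U := (univ.filter (fun i : Fin h => i.val < k)).biUnion T with hU
      have hUc : U.card ≤ m := by
        calc U.card ≤ ∑ i ∈ univ.filter (fun i : Fin h => i.val < k), (T i).card :=
              card_biUnion_le
          _ ≤ ∑ i ∈ univ.filter (fun i : Fin h => i.val < k), 6 * w i :=
              sum_le_sum (fun i hi => (h1 i (mem_filter.1 hi).2).2.1)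
          _ ≤ ∑ i, 6 * w i := sum_le_sum_of_subset (filter_subset _ _)
          _ = 6 * ∑ i, w i := by rw [mul_sum]
          _ ≤ m := hsum
      obtain ⟨S, s1, s2, s3, s4, s5, s6, s7⟩ := exists_branch hA hK hm hUc
        (w := w x) (by have := hw x; omega) (univ.filter (fun y => y < x ∧ H.Adj y x)) T w
        (fun j hj => (h1 j (by
          have := (mem_filter.1 hj).2.1
          exact this)).2.2.2) (fun j _ => hw j) (hW x)
      have hdS : ∀ i : Fin h, i.val < k → Disjoint (T i) S := by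
        intro i hi
        rw [Finset.disjoint_left] at s3 ⊢
        intro z hz hz'
        exact s3 hz' (mem_biUnion.2 ⟨i, mem_filter.2 ⟨mem_univ _, hi⟩, hz⟩)
      have hlt : ∀ i : Fin h, i.val < k + 1 → i ≠ x → i.val < k := by
        intro i hi hne
        have : i.val ≠ k := fun h => hne (Fin.ext h)
        omega
      refine ⟨Function.update T x S, ?_, ?_, ?_⟩
      · intro i hi
        by_cases hix : i = x
        · subst hix
          rw [Function.update_self]
          exact ⟨s1, s4, s5, s6⟩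
        · rw [Function.update_of_ne hix]
          exact h1 i (hlt i hi hix)
      · intro i j hi hj hij
        by_cases hix : i = x
        · subst hix
          rw [Function.update_self, Function.update_of_ne (Ne.symm hij)]
          exact (hdS j (hlt j hj (Ne.symm hij))).symm
        · by_cases hjx : j = x
          · subst hjx
            rw [Function.update_self, Function.update_of_ne hix]
            exact hdS i (hlt i hi hix)
          · rw [Function.update_of_ne hix, Function.update_of_ne hjx]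
            exact h2 i j (hlt i hi hix) (hlt j hj hjx) hij
      · intro i j hi hj hij hadj
        by_cases hjx : j = x
        · subst hjx
          rw [Function.update_self, Function.update_of_ne hij.ne]
          exact s7 i (mem_filter.2 ⟨mem_univ _, hij, hadj⟩)
        · have hjk := hlt j hj hjx
          have hix : i ≠ x := by
            rintro rfl
            have h4 : k < j.val := hij
            omega
          rw [Function.update_of_ne hix, Function.update_of_ne hjx]
          exact h3 i j (hlt i hi hix) hjk hij hadj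
  obtain ⟨T, h1, h2, h3⟩ := main h le_rfl
  refine minor_of T (fun x => (h1 x x.2).1) (fun x => (h1 x x.2).2.2.1)
    (fun x y hxy => h2 x y x.2 y.2 hxy) ?_
  intro x y hxy
  rcases lt_or_gt_of_ne hxy.ne with hlt | hlt
  · exact h3 x y x.2 y.2 hlt hxy
  · obtain ⟨a, ha, b, hb, hab⟩ := h3 y x y.2 x.2 hlt hxy.symm
    exact ⟨b, hb, a, ha, hab.symm⟩

/-- **forcing a weighted minor**: `m = 6 ∑ w`, `K = 50 m` -/
theorem force {h : ℕ} (H : SimpleGraph (Fin h)) (w : Fin h → ℕ) (hw : ∀ x, 3 ≤ w x)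
    (hW : ∀ x, ∑ y ∈ univ.filter (fun y => y < x ∧ H.Adj y x), ((4 / 5 : ℝ) ^ (w y)) ^ (w x) ≤
      1 / 4) {V : Type} [Fintype V] (G : SimpleGraph V) (hV : 0 < Fintype.card V)
    (hG : 600 * (∑ x, w x) * Fintype.card V ≤ pr G) : IsMinor H G := by
  rcases Nat.eq_zero_or_pos h with rfl | hh
  · refine ⟨fun x => x.elim0, fun x => x.elim0, fun x => x.elim0, fun x => x.elim0⟩
  set K := 300 * ∑ x, w x with hK
  have hK1 : 1 ≤ K := by
    have h1 : w ⟨0, hh⟩ ≤ ∑ x, w x := single_le_sum (fun _ _ => Nat.zero_le _) (mem_univ _)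
    have h2 := hw ⟨0, hh⟩
    omega
  obtain ⟨A, hA, D, h1, h2, h3, h4⟩ := mader K hK1 _ V G le_rfl hV (by
    have : 2 * K * Fintype.card V = 600 * (∑ x, w x) * Fintype.card V := by
      rw [hK]; ring
    omega)
  obtain ⟨B, hB⟩ := exists_host (m := 6 * ∑ x, w x) hK1 h2 h3 h4 (by omega)
  exact minor_trans (embed hB hK1 (by omega) H w hw le_rfl hW) h1

end Pool.Agent.R34.FH
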