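import Mathlib
import Pool.Agent.TH507.Defs

/-!
Definitions: the average degree forcing a minor, adding dominant vertices.
-/

set_option autoImplicit false

namespace Pool.Agent.R34.FH

open SimpleGraph
open Pool.Agent.TH507.Host

/-- the average degree of a finite graph -/
noncomputable def avgDeg {V : Type} [Fintype V] (G : SimpleGraph V) : ℝ :=
  2 * (G.edgeSet.ncard : ℝ) / Fintype.card V

/-- every finite (nonempty) graph of average degree at least `c` has `H` as a minor -/
def Forces {W : Type} (H : SimpleGraph W) (c : ℝ) : Prop :=
  ∀ (V : Type) [Fintype V] [Nonempty V] (G : SimpleGraph V), c ≤ avgDeg G → IsMinor H G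

/-- `f(H)`: the infimum of the reals `c` such that every graph of average degree at least `c` has
`H` as a minor -/
noncomputable def threshold {W : Type} (H : SimpleGraph W) : ℝ := sInf {c | Forces H c}

/-- the graph obtained from `H₀` by adding `s` new vertices, adjacent to each other and to all the
vertices of `H₀` -/
def addDominant {t : ℕ} (H₀ : SimpleGraph (Fin t)) (s : ℕ) : SimpleGraph (Fin s ⊕ Fin t) where
  Adj x y := match x, y with
    | Sum.inl a, Sum.inl b => a ≠ b
    | Sum.inl _, Sum.inr _ => True
    | Sum.inr _, Sum.inl _ => True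
    | Sum.inr a, Sum.inr b => H₀.Adj a b
  symm := ⟨by
    rintro (a | a) (b | b) h
    · exact Ne.symm h
    · exact h
    · exact h
    · exact SimpleGraph.Adj.symm h⟩
  loopless := ⟨by
    rintro (a | a) h
    · exact h rfl
    · exact H₀.loopless.irrefl a h⟩

/-- all degrees of `H₀` are equal to `d` -/
def Regular {t : ℕ} (H₀ : SimpleGraph (Fin t)) (d : ℕ) : Prop :=
  ∀ x, (H₀.neighborSet x).ncard = d

/-- the order of magnitude `t √(log d) + √(s t log s)` -/
noncomputable def size (d s t : ℕ) : ℝ :=
  t * √(Real.log d) + √(s * t * Real.log s)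

end Pool.Agent.R34.FH
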