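import Mathlib
import Pool.Agent.R34.FH.Mader

/-!
Random graphs without a given minor.
-/

set_option autoImplicit false
set_option linter.unusedSectionVars false

namespace Pool.Agent.R34.FH

open SimpleGraph Finset Classical
open Pool.Agent.TH507.Host Pool.Agent.R34.Ident Pool.Agent.W126.Split

/-- counting functions which hit every block -/
lemma block_count {E ι : Type} [Fintype E] (T : ι → Finset E) (q : ℕ) (I : Finset ι)
    (hd : ∀ i ∈ I, ∀ j ∈ I, i ≠ j → Disjoint (T i) (T j)) (hq : ∀ i ∈ I, (T i).card ≤ q) :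
    (((univ : Finset (E → Bool)).filter (fun f => ∀ i ∈ I, ∃ e ∈ T i, f e = true)).card : ℝ) ≤
      (1 - (1 / 2) ^ q) ^ I.card * 2 ^ (Fintype.card E) := by
  induction I using Finset.induction_on with
  | empty =>
    have h1 := card_le_univ ((univ : Finset (E → Bool)).filter
      (fun f => ∀ i ∈ (∅ : Finset ι), ∃ e ∈ T i, f e = true))
    rw [Fintype.card_fun, Fintype.card_bool] at h1
    rw [card_empty, pow_zero, one_mul]
    exact_mod_cast h1
  | insert j I hj ih =>
    have ih' := ih (fun a ha b hb => hd a (mem_insert_of_mem ha) b (mem_insert_of_mem hb))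
      (fun a ha => hq a (mem_insert_of_mem ha))
    set X' := (univ : Finset (E → Bool)).filter (fun f => ∀ i ∈ I, ∃ e ∈ T i, f e = true) with hX'
    set X := (univ : Finset (E → Bool)).filter
      (fun f => ∀ i ∈ insert j I, ∃ e ∈ T i, f e = true) with hX
    set Y := X'.filter (fun f => ∀ e ∈ T j, f e = false) with hY
    have hXY : X.card + Y.card ≤ X'.card := by
      have h1 : Disjoint X Y := by
        rw [Finset.disjoint_left]
        intro f hf hf'
        obtain ⟨e, he, hfe⟩ := (mem_filter.1 hf).2 j (mem_insert_self _ _)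
        rw [(mem_filter.1 hf').2 e he] at hfe
        exact absurd hfe (by simp)
      rw [← card_union_of_disjoint h1]
      apply card_le_card
      apply union_subset
      · intro f hf
        exact mem_filter.2 ⟨mem_univ _, fun i hi => (mem_filter.1 hf).2 i (mem_insert_of_mem hi)⟩
      · exact filter_subset _ _
    have hfib : X'.card ≤ 2 ^ q * Y.card := by
      refine card_le_mul_card_image_of_maps_to (f := fun f e => if e ∈ T j then false else f e)
        ?_ _ ?_
      · intro f hf
        rw [hY, mem_filter, hX', mem_filter]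
        refine ⟨⟨mem_univ _, ?_⟩, ?_⟩
        · intro i hi
          obtain ⟨e, he, hfe⟩ := (mem_filter.1 hf).2 i hi
          have hne : i ≠ j := by
            rintro rfl
            exact hj hi
          have h1 : e ∉ T j := fun h => Finset.disjoint_left.1
            (hd i (mem_insert_of_mem hi) j (mem_insert_self _ _) hne) he h
          exact ⟨e, he, by simp [h1, hfe]⟩
        · intro e he
          simp [he]
      · intro g _
        have h1 : (X'.filter (fun f => (fun e => if e ∈ T j then false else f e) = g)).card ≤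
            ((T j).powerset).card := by
          refine card_le_card_of_injOn (fun f => (T j).filter (fun e => f e = true)) ?_ ?_
          · intro f _
            rw [mem_coe, mem_powerset]
            exact filter_subset _ _
          · intro f hf f' hf' heq
            rw [mem_coe, mem_filter] at hf hf'
            have h2 := hf.2.trans hf'.2.symm
            funext e
            by_cases he : e ∈ T j
            · have h3 : e ∈ (T j).filter (fun e => f e = true) ↔
                  e ∈ (T j).filter (fun e => f' e = true) := by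
                have := congrArg (fun s => e ∈ s) heq
                simpa using this
              rw [mem_filter, mem_filter] at h3
              have h4 : f e = true ↔ f' e = true := by tauto
              exact Bool.eq_iff_iff.2 h4
            · have h3 := congrFun h2 e
              simpa [he] using h3
        rw [card_powerset] at h1
        exact h1.trans (Nat.pow_le_pow_right (by norm_num) (hq j (mem_insert_self _ _)))
    have h1 : (X.card : ℝ) + Y.card ≤ X'.card := by exact_mod_cast hXY
    have h2 : (X'.card : ℝ) ≤ 2 ^ q * Y.card := by exact_mod_cast hfib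
    have h3 : ((1 : ℝ) / 2) ^ q * X'.card ≤ Y.card := by
      have h4 : ((1 : ℝ) / 2) ^ q * 2 ^ q = 1 := by
        rw [← mul_pow]; norm_num
      calc ((1 : ℝ) / 2) ^ q * X'.card ≤ (1 / 2) ^ q * (2 ^ q * Y.card) := by gcongr
        _ = (1 / 2) ^ q * 2 ^ q * Y.card := by ring
        _ = Y.card := by rw [h4, one_mul]
    have h5 : (0 : ℝ) ≤ 1 - (1 / 2) ^ q := by
      have : ((1 : ℝ) / 2) ^ q ≤ 1 := pow_le_one₀ (by norm_num) (by norm_num)
      linarith
    rw [card_insert_of_notMem hj, pow_succ']
    calc (X.card : ℝ) ≤ (1 - (1 / 2) ^ q) * X'.card := by nlinarith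
      _ ≤ (1 - (1 / 2) ^ q) * ((1 - (1 / 2) ^ q) ^ I.card * 2 ^ (Fintype.card E)) :=
          mul_le_mul_of_nonneg_left ih' h5
      _ = _ := by ring

lemma block_count' {E ι : Type} [Fintype E] (T : ι → Finset E) (q : ℕ) (I : Finset ι)
    (hd : ∀ i ∈ I, ∀ j ∈ I, i ≠ j → Disjoint (T i) (T j)) (hq : ∀ i ∈ I, (T i).card ≤ q)
    (X : Finset (E → Bool)) (hX : ∀ f ∈ X, ∀ i ∈ I, ∃ e ∈ T i, f e = true) :
    (X.card : ℝ) ≤ (1 - (1 / 2) ^ q) ^ I.card * 2 ^ (Fintype.card E) := by
  refine le_trans ?_ (block_count T q I hd hq)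
  exact_mod_cast card_le_card (fun f hf => mem_filter.2 ⟨mem_univ _, hX f hf⟩)

/-- the graph of a function on pairs -/
def gr {n : ℕ} (f : Sym2 (Fin n) → Bool) : SimpleGraph (Fin n) where
  Adj u v := u ≠ v ∧ f s(u, v) = true
  symm := ⟨fun u v h => ⟨h.1.symm, by rw [Sym2.eq_swap]; exact h.2⟩⟩
  loopless := ⟨fun _ h => h.1 rfl⟩

lemma pr_gr {n : ℕ} (f : Sym2 (Fin n) → Bool) :
    pr (gr f) + pr (gr (fun e => !(f e))) = n * (n - 1) := by
  have h1 : pr (gr f) + pr (gr (fun e => !(f e))) =
      ((univ : Finset (Fin n × Fin n)).filter (fun x => x.1 ≠ x.2)).card := by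
    unfold pr
    rw [← card_union_of_disjoint]
    · congr 1
      ext ⟨a, b⟩
      rw [mem_union, mem_filter, mem_filter, mem_filter]
      change (_ ∧ (a ≠ b ∧ f s(a, b) = true)) ∨ (_ ∧ (a ≠ b ∧ (!(f s(a, b))) = true)) ↔
        _ ∧ a ≠ b
      cases f s(a, b) <;> simp
    · rw [Finset.disjoint_left]
      rintro ⟨a, b⟩ h1 h2
      rw [mem_filter] at h1 h2
      have e1 : f s(a, b) = true := h1.2.2
      have e2 : (!(f s(a, b))) = true := h2.2.2
      rw [e1] at e2
      exact absurd e2 (by simp)
  rw [h1]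
  have h2 : (univ : Finset (Fin n × Fin n)).filter (fun x => x.1 ≠ x.2) =
      (univ : Finset (Fin n)).offDiag := by
    ext ⟨a, b⟩
    simp
  rw [h2, offDiag_card, card_univ, Fintype.card_fin, Nat.mul_sub_one]

/-- at least half of the functions give dense graphs -/
lemma half_dense (n : ℕ) :
    2 ^ (Fintype.card (Sym2 (Fin n))) ≤
      2 * ((univ : Finset (Sym2 (Fin n) → Bool)).filter (fun f => n * (n - 1) ≤ 2 * pr (gr f))).card
    := by
  set Dn := (univ : Finset (Sym2 (Fin n) → Bool)).filter (fun f => n * (n - 1) ≤ 2 * pr (gr f))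
    with hDn
  have h1 : (univ \ Dn).card ≤ Dn.card := by
    refine card_le_card_of_injOn (fun f e => !(f e)) ?_ ?_
    · intro f hf
      rw [mem_coe, mem_sdiff, hDn, mem_filter, not_and] at hf
      have h2 := hf.2 (mem_univ _)
      rw [mem_coe, hDn, mem_filter]
      refine ⟨mem_univ _, ?_⟩
      have h3 := pr_gr f
      change n * (n - 1) ≤ 2 * pr (gr (fun e => !(f e)))
      omega
    · intro f _ g _ heq
      funext e
      have := congrFun heq e
      simpa using this
  have h2 : (univ \ Dn).card + Dn.card = 2 ^ (Fintype.card (Sym2 (Fin n))) := by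
    rw [card_sdiff_add_card_eq_card (subset_univ _), card_univ, Fintype.card_fun,
      Fintype.card_bool]
  omega

/-- **random graphs without `H` minor** -/
theorem random {h n q M : ℕ} (H : SimpleGraph (Fin h))
    (hM : ∀ B : Fin h → Finset (Fin n), (∀ x y, x ≠ y → Disjoint (B x) (B y)) →
      M ≤ ((univ : Finset (Fin h × Fin h)).filter
        (fun p => p.1 < p.2 ∧ H.Adj p.1 p.2 ∧ (B p.1).card * (B p.2).card ≤ q)).card)
    (hnum : ((h + 1 : ℕ) : ℝ) ^ n * (1 - (1 / 2) ^ q) ^ M < 1 / 2) :
    ∃ G : SimpleGraph (Fin n), n * (n - 1) ≤ 2 * pr G ∧ ¬ IsMinor H G := by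
  set N := Fintype.card (Sym2 (Fin n)) with hN
  set B : (Fin n → Option (Fin h)) → Fin h → Finset (Fin n) :=
    fun φ x => univ.filter (fun v => φ v = some x) with hB
  have hBd : ∀ φ, ∀ x y, x ≠ y → Disjoint (B φ x) (B φ y) := by
    intro φ x y hxy
    rw [Finset.disjoint_left]
    intro v hv hv'
    rw [hB, mem_filter] at hv hv'
    exact hxy (Option.some.inj (hv.2.symm.trans hv'.2))
  set T : (Fin n → Option (Fin h)) → Fin h × Fin h → Finset (Sym2 (Fin n)) :=
    fun φ p => (B φ p.1 ×ˢ B φ p.2).image (fun z => s(z.1, z.2)) with hT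
  set I : (Fin n → Option (Fin h)) → Finset (Fin h × Fin h) := fun φ =>
    (univ : Finset (Fin h × Fin h)).filter
        (fun p => p.1 < p.2 ∧ H.Adj p.1 p.2 ∧ (B φ p.1).card * (B φ p.2).card ≤ q) with hI
  set Bad : (Fin n → Option (Fin h)) → Finset (Sym2 (Fin n) → Bool) := fun φ =>
    univ.filter (fun f => ∀ p ∈ I φ, ∃ e ∈ T φ p, f e = true) with hBad
  have hq1 : (0 : ℝ) ≤ 1 - (1 / 2) ^ q := by
    have : ((1 : ℝ) / 2) ^ q ≤ 1 := pow_le_one₀ (by norm_num) (by norm_num)
    linarith
  have hq2 : (1 : ℝ) - (1 / 2) ^ q ≤ 1 := by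
    have : (0 : ℝ) ≤ (1 / 2) ^ q := by positivity
    linarith
  have hBadc : ∀ φ, ((Bad φ).card : ℝ) ≤ (1 - (1 / 2) ^ q) ^ M * 2 ^ N := by
    intro φ
    have h1 := block_count' (T φ) q (I φ) (by
      rintro ⟨x, y⟩ hxy ⟨x', y'⟩ hxy' hne
      rw [Finset.disjoint_left]
      rintro e he he'
      obtain ⟨⟨a, b⟩, hab, rfl⟩ := mem_image.1 he
      obtain ⟨⟨a', b'⟩, hab', heq⟩ := mem_image.1 he'
      rw [mem_product] at hab hab'
      have e1 := (mem_filter.1 hab.1).2
      have e2 := (mem_filter.1 hab.2).2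
      have e3 := (mem_filter.1 hab'.1).2
      have e4 := (mem_filter.1 hab'.2).2
      simp only at e1 e2 e3 e4 heq
      have hlt := (mem_filter.1 hxy).2.1
      have hlt' := (mem_filter.1 hxy').2.1
      simp only at hlt hlt'
      rw [Sym2.eq_iff] at heq
      rcases heq with ⟨rfl, rfl⟩ | ⟨rfl, rfl⟩
      · apply hne
        rw [e1] at e3
        rw [e2] at e4
        rw [Option.some.inj e3, Option.some.inj e4]
      · rw [e2] at e3
        rw [e1] at e4
        have h5 := Option.some.inj e3
        have h6 := Option.some.inj e4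
        subst h5; subst h6
        exact absurd hlt (not_lt.2 hlt'.le)) (by
      rintro ⟨x, y⟩ hxy
      have h2 := (mem_filter.1 hxy).2.2.2
      refine card_image_le.trans ?_
      rw [card_product]
      exact h2) (Bad φ) (fun f hf => (mem_filter.1 hf).2)
    have h2 : (1 - (1 / 2 : ℝ) ^ q) ^ (I φ).card * 2 ^ N ≤ (1 - (1 / 2) ^ q) ^ M * 2 ^ N := by
      apply mul_le_mul_of_nonneg_right _ (by positivity)
      exact pow_le_pow_of_le_one hq1 hq2 (hM (B φ) (hBd φ))
    exact h1.trans h2
  have hcover : ∀ f : Sym2 (Fin n) → Bool, IsMinor H (gr f) → ∃ φ, f ∈ Bad φ := by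
    rintro f ⟨C, hC1, hC2, hC3⟩
    let φ : Fin n → Option (Fin h) := fun v => if hv : ∃ x, v ∈ C x then some hv.choose else none
    have hφ : ∀ x v, v ∈ C x → φ v = some x := by
      intro x v hv
      have hex : ∃ x, v ∈ C x := ⟨x, hv⟩
      have h1 : φ v = some hex.choose := dif_pos hex
      rw [h1]
      congr 1
      by_contra hne
      exact Set.disjoint_left.1 (hC2 _ _ hne) hex.choose_spec hv
    refine ⟨φ, mem_filter.2 ⟨mem_univ _, ?_⟩⟩
    rintro ⟨x, y⟩ hp
    have hadj := (mem_filter.1 hp).2.2.1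
    obtain ⟨u, hu, v, hv, huv⟩ := hC3 x y hadj
    refine ⟨s(u, v), mem_image.2 ⟨(u, v), mem_product.2 ⟨?_, ?_⟩, rfl⟩, huv.2⟩
    · exact mem_filter.2 ⟨mem_univ _, hφ x u hu⟩
    · exact mem_filter.2 ⟨mem_univ _, hφ y v hv⟩
  set Dn := (univ : Finset (Sym2 (Fin n) → Bool)).filter (fun f => n * (n - 1) ≤ 2 * pr (gr f))
    with hDn
  have hD : (2 : ℝ) ^ N ≤ 2 * Dn.card := by exact_mod_cast half_dense n
  set All := (univ : Finset (Fin n → Option (Fin h))).biUnion Bad with hAll
  have hAllc : (All.card : ℝ) < Dn.card := by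
    have h1 : (All.card : ℝ) ≤ ∑ φ : Fin n → Option (Fin h), ((Bad φ).card : ℝ) := by
      exact_mod_cast card_biUnion_le
    have h2 : ∑ φ : Fin n → Option (Fin h), ((Bad φ).card : ℝ) ≤
        ((h + 1 : ℕ) : ℝ) ^ n * ((1 - (1 / 2) ^ q) ^ M * 2 ^ N) := by
      refine (sum_le_sum (fun φ _ => hBadc φ)).trans ?_
      rw [sum_const, card_univ, nsmul_eq_mul]
      simp
    have h3 : (0 : ℝ) < 2 ^ N := by positivity
    nlinarith
  obtain ⟨f, hf, hfn⟩ : ∃ f ∈ Dn, f ∉ All := by
    by_contra hcon
    push Not at hcon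
    have h1 : (Dn.card : ℝ) ≤ All.card := by
      exact_mod_cast card_le_card (show Dn ⊆ All from hcon)
    linarith
  refine ⟨gr f, (mem_filter.1 hf).2, fun hmin => ?_⟩
  obtain ⟨φ, hφ⟩ := hcover f hmin
  exact hfn (mem_biUnion.2 ⟨φ, mem_univ _, hφ⟩)

end Pool.Agent.R34.FH
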