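import Mathlib
import Pool.Agent.R34.FH.Defs
import Pool.Agent.R34.FH.Core

/-!
The upper bound `f(H) = O(t √(log d) + √(s t log s))`.
-/

set_option autoImplicit false
set_option linter.unusedSectionVars false

namespace Pool.Agent.R34.FH

open SimpleGraph Finset Classical
open Pool.Agent.TH507.Host Pool.Agent.R34.Ident

lemma avgDeg_eq {V : Type} [Fintype V] (G : SimpleGraph V) :
    avgDeg G = (pr G : ℝ) / Fintype.card V := by
  unfold avgDeg
  congr 1
  have h1 : pr G = 2 * G.edgeFinset.card := by
    rw [← sum_degrees_eq_twice_card_edges, pr_eq]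
    apply sum_congr rfl
    intro v _
    rw [← card_neighborFinset_eq_degree]
    congr 1
    ext y
    rw [mem_nb, mem_neighborFinset]
  have h2 : G.edgeSet.ncard = G.edgeFinset.card := by
    rw [Set.ncard_eq_toFinset_card']
    congr!
  rw [h1, h2]
  push_cast
  ring

lemma pow_small {r : ℝ} (hr : 2 ≤ r) {N : ℕ} (hN : 20 * Real.log r ≤ N) :
    r * (4 / 5 : ℝ) ^ N ≤ 1 / 8 := by
  have hr0 : 0 < r := by linarith
  have h1 : (4 / 5 : ℝ) ≤ Real.exp (-(1 / 5)) := by
    have := Real.add_one_le_exp (-(1 / 5 : ℝ))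
    linarith
  have h2 : (4 / 5 : ℝ) ^ N ≤ Real.exp (-(4 * Real.log r)) := by
    calc (4 / 5 : ℝ) ^ N ≤ (Real.exp (-(1 / 5))) ^ N := pow_le_pow_left₀ (by norm_num) h1 N
      _ = Real.exp (N * (-(1 / 5))) := by rw [← Real.exp_nat_mul]
      _ ≤ Real.exp (-(4 * Real.log r)) := by
          apply Real.exp_le_exp.2
          linarith
  have h3 : Real.exp (-(4 * Real.log r)) = (r ^ 4)⁻¹ := by
    rw [Real.exp_neg]
    congr 1
    have : (4 : ℝ) * Real.log r = Real.log (r ^ 4) := by
      rw [Real.log_pow]
      norm_num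
    rw [this, Real.exp_log (by positivity)]
  rw [h3] at h2
  calc r * (4 / 5 : ℝ) ^ N ≤ r * (r ^ 4)⁻¹ := by gcongr
    _ = (r ^ 3)⁻¹ := by
        field_simp
    _ ≤ (2 ^ 3 : ℝ)⁻¹ := by
        apply inv_anti₀ (by norm_num)
        exact pow_le_pow_left₀ (by norm_num) hr 3
    _ = 1 / 8 := by norm_num

/-- the weighted embedding for a graph with dominant vertices -/
lemma force_dominant {d s t W w : ℕ} (H₀ : SimpleGraph (Fin t))
    (hH : ∀ x, (H₀.neighborSet x).ncard ≤ d) (hW3 : 3 ≤ W) (hw3 : 3 ≤ w)
    (h1 : (s : ℝ) * (4 / 5) ^ (W * W) ≤ 1 / 8) (h2 : (s : ℝ) * (4 / 5) ^ (W * w) ≤ 1 / 8)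
    (h3 : (d : ℝ) * (4 / 5) ^ (w * w) ≤ 1 / 8) {V : Type} [Fintype V] (G : SimpleGraph V)
    (hV : 0 < Fintype.card V) (hG : 600 * (s * W + t * w) * Fintype.card V ≤ pr G) :
    IsMinor (addDominant H₀ s) G := by
  set e : Fin s ⊕ Fin t ≃ Fin (s + t) := finSumFinEquiv with he
  obtain ⟨H, hHd⟩ : ∃ H : SimpleGraph (Fin (s + t)), ∀ x y, H.Adj x y ↔
      (addDominant H₀ s).Adj (e.symm x) (e.symm y) :=
    ⟨(addDominant H₀ s).comap e.symm, fun _ _ => Iff.rfl⟩
  let g : Fin s ⊕ Fin t → ℕ := fun z => match z with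
    | Sum.inl _ => W
    | Sum.inr _ => w
  have hmin : IsMinor (addDominant H₀ s) H := by
    refine minor_sub e e.injective ?_
    intro u v huv
    rw [hHd, Equiv.symm_apply_apply, Equiv.symm_apply_apply]
    exact huv
  refine minor_trans hmin (force H (fun x => g (e.symm x)) ?_ ?_ G hV ?_)
  · intro x
    rcases e.symm x with a | a
    · exact hW3
    · exact hw3
  · intro x
    -- rewrite the sum over `Fin s ⊕ Fin t`
    have hsum : ∑ y ∈ univ.filter (fun y => y < x ∧ H.Adj y x),
        ((4 / 5 : ℝ) ^ (g (e.symm y))) ^ (g (e.symm x)) =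
        ∑ z : Fin s ⊕ Fin t, if (e z < x ∧ (addDominant H₀ s).Adj z (e.symm x)) then
          ((4 / 5 : ℝ) ^ (g z)) ^ (g (e.symm x)) else 0 := by
      rw [sum_filter, ← Equiv.sum_comp e]
      apply sum_congr rfl
      intro z _
      simp only [hHd, Equiv.symm_apply_apply]
    rw [hsum, Fintype.sum_sum_type]
    obtain ⟨z, rfl⟩ := e.surjective x
    rw [Equiv.symm_apply_apply]
    rcases z with a | b
    · have e1 : ∑ a' : Fin s, (if (e (Sum.inl a') < e (Sum.inl a) ∧
          (addDominant H₀ s).Adj (Sum.inl a') (Sum.inl a)) then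
          ((4 / 5 : ℝ) ^ (g (Sum.inl a'))) ^ (g (Sum.inl a)) else 0) ≤ 1 / 8 := by
        calc _ ≤ ∑ _a' : Fin s, (4 / 5 : ℝ) ^ (W * W) := by
              apply sum_le_sum
              intro a' _
              have : ((4 / 5 : ℝ) ^ (g (Sum.inl a'))) ^ (g (Sum.inl a)) =
                  (4 / 5 : ℝ) ^ (W * W) := by
                rw [← pow_mul]
              rw [this]
              split_ifs
              · exact le_rfl
              · positivity
          _ = (s : ℝ) * (4 / 5) ^ (W * W) := by
              rw [sum_const, card_univ, Fintype.card_fin, nsmul_eq_mul]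
          _ ≤ _ := h1
      have e2 : ∑ b' : Fin t, (if (e (Sum.inr b') < e (Sum.inl a) ∧
          (addDominant H₀ s).Adj (Sum.inr b') (Sum.inl a)) then
          ((4 / 5 : ℝ) ^ (g (Sum.inr b'))) ^ (g (Sum.inl a)) else 0) = 0 := by
        apply sum_eq_zero
        intro b' _
        rw [if_neg]
        rintro ⟨hlt, -⟩
        have h4 : s + b'.val < a.val := by
          have := Fin.lt_def.1 hlt
          simpa [he] using this
        have := a.2
        omega
      rw [e2]
      linarith
    · have e1 : ∑ a' : Fin s, (if (e (Sum.inl a') < e (Sum.inr b) ∧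
          (addDominant H₀ s).Adj (Sum.inl a') (Sum.inr b)) then
          ((4 / 5 : ℝ) ^ (g (Sum.inl a'))) ^ (g (Sum.inr b)) else 0) ≤ 1 / 8 := by
        calc _ ≤ ∑ _a' : Fin s, (4 / 5 : ℝ) ^ (W * w) := by
              apply sum_le_sum
              intro a' _
              have : ((4 / 5 : ℝ) ^ (g (Sum.inl a'))) ^ (g (Sum.inr b)) =
                  (4 / 5 : ℝ) ^ (W * w) := by
                rw [← pow_mul]
              rw [this]
              split_ifs
              · exact le_rfl
              · positivity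
          _ = (s : ℝ) * (4 / 5) ^ (W * w) := by
              rw [sum_const, card_univ, Fintype.card_fin, nsmul_eq_mul]
          _ ≤ _ := h2
      have e2 : ∑ b' : Fin t, (if (e (Sum.inr b') < e (Sum.inr b) ∧
          (addDominant H₀ s).Adj (Sum.inr b') (Sum.inr b)) then
          ((4 / 5 : ℝ) ^ (g (Sum.inr b'))) ^ (g (Sum.inr b)) else 0) ≤ 1 / 8 := by
        calc _ ≤ ∑ b' : Fin t, if H₀.Adj b b' then (4 / 5 : ℝ) ^ (w * w) else 0 := by
              apply sum_le_sum
              intro b' _
              have : ((4 / 5 : ℝ) ^ (g (Sum.inr b'))) ^ (g (Sum.inr b)) =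
                  (4 / 5 : ℝ) ^ (w * w) := by
                rw [← pow_mul]
              rw [this]
              by_cases hb : H₀.Adj b b'
              · rw [if_pos hb]
                split_ifs
                · exact le_rfl
                · positivity
              · rw [if_neg hb, if_neg]
                rintro ⟨-, h⟩
                exact hb (SimpleGraph.Adj.symm h)
          _ = (((univ : Finset (Fin t)).filter (fun b' => H₀.Adj b b')).card : ℝ) *
                (4 / 5) ^ (w * w) := by
              rw [← sum_filter, sum_const, nsmul_eq_mul]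
          _ ≤ (d : ℝ) * (4 / 5) ^ (w * w) := by
              apply mul_le_mul_of_nonneg_right _ (by positivity)
              have h4 := hH b
              have h5 : (H₀.neighborSet b).ncard =
                  ((univ : Finset (Fin t)).filter (fun b' => H₀.Adj b b')).card := by
                rw [← Set.ncard_coe_finset]
                congr 1
                ext y
                simp
              rw [h5] at h4
              exact_mod_cast h4
          _ ≤ _ := h3
      linarith
  · have h4 : ∑ x, g (e.symm x) = s * W + t * w := by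
      rw [Equiv.sum_comp e.symm, Fintype.sum_sum_type]
      simp [g]
    rw [h4]
    exact hG

/-- **the upper bound** -/
theorem upper {d s t : ℕ} (hd : 2 ≤ d) (hs : 2 ≤ s) (hst : s ≤ t) (H₀ : SimpleGraph (Fin t))
    (hH : ∀ x, (H₀.neighborSet x).ncard ≤ d) :
    Forces (addDominant H₀ s) (18000 * size d s t) := by
  intro V _ _ G hG
  have hV : 0 < Fintype.card V := Fintype.card_pos
  have hVR : (0 : ℝ) < Fintype.card V := by exact_mod_cast hV
  have hdR : (2 : ℝ) ≤ d := by exact_mod_cast hd
  have hsR : (2 : ℝ) ≤ s := by exact_mod_cast hs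
  have hstR : (s : ℝ) ≤ t := by exact_mod_cast hst
  have htR : (0 : ℝ) < t := by linarith
  have hlogs : 0 < Real.log s := Real.log_pos (by linarith)
  have hlogd : 0 < Real.log d := Real.log_pos (by linarith)
  set a := √(Real.log d) with ha
  set b := √(s * Real.log s / t) with hb
  have ha0 : 0 < a := Real.sqrt_pos.2 hlogd
  have hb0 : 0 < b := Real.sqrt_pos.2 (by positivity)
  have ha2 : a ^ 2 = Real.log d := Real.sq_sqrt hlogd.le
  have hb2 : b ^ 2 = s * Real.log s / t := Real.sq_sqrt (by positivity)
  have hY : √(s * t * Real.log s) = t * b := by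
    rw [Real.sqrt_eq_iff_mul_self_eq (by positivity) (by positivity)]
    have : t * b * (t * b) = t ^ 2 * b ^ 2 := by ring
    rw [this, hb2]
    field_simp
  set w := ⌈5 * a + 5 * b⌉₊ + 3 with hw
  set W := ⌈20 * Real.log s / w⌉₊ + w with hW
  have hwR : (w : ℝ) = ⌈5 * a + 5 * b⌉₊ + 3 := by rw [hw]; push_cast; ring
  have hw1 : 5 * a + 5 * b ≤ w := by
    have := Nat.le_ceil (5 * a + 5 * b)
    linarith
  have hw2 : (w : ℝ) ≤ 5 * a + 5 * b + 4 := by
    have := Nat.ceil_lt_add_one (show 0 ≤ 5 * a + 5 * b by positivity)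
    linarith
  have hwpos : (0 : ℝ) < w := by linarith
  have hWR : (W : ℝ) = ⌈20 * Real.log s / w⌉₊ + w := by rw [hW]; push_cast; ring
  have hW1 : 20 * Real.log s / w ≤ W := by
    have := Nat.le_ceil (20 * Real.log s / w)
    linarith
  have hW2 : (W : ℝ) ≤ 20 * Real.log s / w + 1 + w := by
    have := Nat.ceil_lt_add_one (show 0 ≤ 20 * Real.log s / w by positivity)
    linarith
  have hWw : 20 * Real.log s ≤ (W * w : ℕ) := by
    push_cast
    rw [div_le_iff₀ hwpos] at hW1
    exact hW1
  have hWW : 20 * Real.log s ≤ (W * W : ℕ) := by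
    refine hWw.trans ?_
    have : w ≤ W := by omega
    exact_mod_cast Nat.mul_le_mul_left W this
  have hww : 20 * Real.log d ≤ (w * w : ℕ) := by
    push_cast
    have h1 : 5 * a ≤ w := by linarith
    nlinarith
  refine force_dominant (W := W) (w := w) H₀ hH (by omega) (by omega)
    (pow_small hsR hWW) (pow_small hsR hWw) (pow_small hdR hww) G hV ?_
  -- the total weight
  have hs1 : s * (20 * Real.log s / w) ≤ 4 * (t * b) := by
    have h1 : s * Real.log s = t * b ^ 2 := by
      rw [hb2]
      field_simp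
    have h2 : 5 * b ≤ w := by linarith
    have h3 : s * (20 * Real.log s / w) = 20 * (t * b ^ 2) / w := by
      rw [← h1]
      ring
    rw [h3, div_le_iff₀ hwpos]
    have h4 : (0 : ℝ) < t * b := by positivity
    nlinarith
  have ha1 : 4 / 5 ≤ a := by
    rw [ha]
    apply Real.le_sqrt_of_sq_le
    have h1 : Real.log 2 ≤ Real.log d := Real.log_le_log (by norm_num) hdR
    have h2 := Real.log_two_gt_d9
    linarith
  have htot : (s : ℝ) * W + t * w ≤ 30 * (t * a + t * b) := by
    have h1 : (s : ℝ) * W ≤ s * (20 * Real.log s / w) + s + s * w := by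
      have : (s : ℝ) * W ≤ s * (20 * Real.log s / w + 1 + w) := by gcongr
      linarith
    have h2 : (s : ℝ) * w ≤ t * w := by gcongr
    have h3 : (t : ℝ) * w ≤ t * (5 * a + 5 * b + 4) := by gcongr
    have h3' : (t : ℝ) * (5 * a + 5 * b + 4) = 5 * (t * a) + 5 * (t * b) + 4 * t := by ring
    have h4 : (t : ℝ) * (4 / 5) ≤ t * a := by gcongr
    have h5 : (0 : ℝ) < t * b := by positivity
    linarith
  have hGR : 18000 * (t * a + t * b) * Fintype.card V ≤ pr G := by
    rw [avgDeg_eq, le_div_iff₀ hVR] at hG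
    have : size d s t = t * a + t * b := by
      unfold size
      rw [hY]
    rw [this] at hG
    exact hG
  have h5 : ((600 * (s * W + t * w) * Fintype.card V : ℕ) : ℝ) ≤ pr G := by
    push_cast
    refine le_trans ?_ hGR
    apply mul_le_mul_of_nonneg_right _ hVR.le
    linarith
  exact_mod_cast h5

end Pool.Agent.R34.FH
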