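import Mathlib
import Pool.Agent.R34.FH.Defs
import Pool.Agent.R34.FH.Rand
import Pool.Agent.R34.FH.Upper

/-!
Lower bounds for the average degree forcing a minor.
-/

set_option autoImplicit false
set_option linter.unusedSectionVars false

namespace Pool.Agent.R34.FH

open SimpleGraph Finset Classical
open Pool.Agent.TH507.Host Pool.Agent.R34.Ident

/-- few sets are large -/
lemma big_few {ι : Type} [Fintype ι] (f : ι → ℕ) {k m n : ℕ} (hn : 0 < n)
    (hf : ∑ i, f i ≤ n) : m * (univ.filter (fun i => m * n < k * f i)).card ≤ k := by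
  set Big := univ.filter (fun i => m * n < k * f i) with hBig
  have h1 : Big.card * (m * n) ≤ k * n := by
    calc Big.card * (m * n) = ∑ _i ∈ Big, m * n := by rw [sum_const, smul_eq_mul]
      _ ≤ ∑ i ∈ Big, k * f i := sum_le_sum (fun i hi => (mem_filter.1 hi).2.le)
      _ ≤ ∑ i, k * f i := sum_le_sum_of_subset (filter_subset _ _)
      _ = k * ∑ i, f i := by rw [mul_sum]
      _ ≤ k * n := Nat.mul_le_mul_left _ hf
  have h2 : (m * Big.card) * n ≤ k * n := by
    calc (m * Big.card) * n = Big.card * (m * n) := by ring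
      _ ≤ _ := h1
  exact Nat.le_of_mul_le_mul_right h2 hn

lemma sum_disjoint {ι : Type} [Fintype ι] {n : ℕ} (B : ι → Finset (Fin n))
    (hB : ∀ x y, x ≠ y → Disjoint (B x) (B y)) : ∑ i, (B i).card ≤ n := by
  rw [← card_biUnion (fun i _ j _ hij => hB i j hij)]
  exact (card_le_univ _).trans (by simp)

/-- the numerical condition -/
lemma num_cond {h n q M : ℕ} (hx : (n : ℝ) * Real.log ((h + 1 : ℕ) : ℝ) + 1 < M * (1 / 2) ^ q) :
    ((h + 1 : ℕ) : ℝ) ^ n * (1 - (1 / 2) ^ q) ^ M < 1 / 2 := by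
  have h1 : ((h + 1 : ℕ) : ℝ) ^ n = Real.exp (n * Real.log ((h + 1 : ℕ) : ℝ)) := by
    rw [Real.exp_nat_mul, Real.exp_log (by positivity)]
  have h2 : (1 - (1 / 2 : ℝ) ^ q) ^ M ≤ Real.exp (-(M * (1 / 2) ^ q)) := by
    have h3 : (1 : ℝ) - (1 / 2) ^ q ≤ Real.exp (-((1 / 2) ^ q)) := by
      have := Real.add_one_le_exp (-((1 / 2 : ℝ) ^ q))
      linarith
    have h4 : (0 : ℝ) ≤ 1 - (1 / 2) ^ q := by
      have : ((1 : ℝ) / 2) ^ q ≤ 1 := pow_le_one₀ (by norm_num) (by norm_num)
      linarith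
    calc (1 - (1 / 2 : ℝ) ^ q) ^ M ≤ (Real.exp (-((1 / 2) ^ q))) ^ M := pow_le_pow_left₀ h4 h3 M
      _ = _ := by
        rw [← Real.exp_nat_mul]
        congr 1
        ring
  have h5 : Real.exp (-1) < 1 / 2 := by
    rw [Real.exp_neg]
    have := Real.exp_one_gt_d9
    rw [inv_lt_comm₀ (Real.exp_pos 1) (by norm_num)]
    norm_num
    linarith
  calc ((h + 1 : ℕ) : ℝ) ^ n * (1 - (1 / 2) ^ q) ^ M
      ≤ Real.exp (n * Real.log ((h + 1 : ℕ) : ℝ)) * Real.exp (-(M * (1 / 2) ^ q)) := by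
        rw [h1]
        gcongr
    _ = Real.exp (n * Real.log ((h + 1 : ℕ) : ℝ) - M * (1 / 2) ^ q) := by
        rw [← Real.exp_add]
        ring_nf
    _ ≤ Real.exp (-1) := Real.exp_le_exp.2 (by linarith)
    _ < 1 / 2 := h5

/-- from a graph to a lower bound -/
lemma lower_of {W : Type} {H : SimpleGraph W} {n : ℕ} (hn : 0 < n)
    (hG : ∃ G : SimpleGraph (Fin n), n * (n - 1) ≤ 2 * pr G ∧ ¬ IsMinor H G) {c : ℝ}
    (hc : Forces H c) : ((n : ℝ) - 1) / 2 < c := by
  obtain ⟨G, h1, h2⟩ := hG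
  by_contra hcon
  push Not at hcon
  have : Nonempty (Fin n) := ⟨⟨0, hn⟩⟩
  apply h2
  apply hc (Fin n) G
  refine hcon.trans ?_
  have hnR : (0 : ℝ) < n := by exact_mod_cast hn
  rw [avgDeg_eq, Fintype.card_fin, le_div_iff₀ hnR]
  have h3 : ((n * (n - 1) : ℕ) : ℝ) ≤ ((2 * pr G : ℕ) : ℝ) := by exact_mod_cast h1
  rw [Nat.cast_mul, Nat.cast_sub (by omega)] at h3
  push_cast at h3
  nlinarith

/-- a power of `1/2` -/
lemma half_pow {q : ℕ} {x r : ℝ} (hx : 1 ≤ x) (hr : r = Real.exp (1 / 4 * Real.log x))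
    (hq : (q : ℝ) ≤ 1 / 4 * Real.log x) : 1 / r ≤ (1 / 2) ^ q := by
  have hlog : 0 ≤ Real.log x := Real.log_nonneg hx
  have h1 : ((1 : ℝ) / 2) ^ q = Real.exp (-(q * Real.log 2)) := by
    rw [one_div, inv_pow, Real.exp_neg, Real.exp_nat_mul, Real.exp_log (by norm_num)]
  rw [h1, hr, one_div, ← Real.exp_neg]
  apply Real.exp_le_exp.2
  have h2 : Real.log 2 ≤ 1 := by
    have := Real.log_two_lt_d9
    linarith
  have h3 : (q : ℝ) * Real.log 2 ≤ q * 1 := by
    apply mul_le_mul_of_nonneg_left h2 (by positivity)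
  linarith

lemma r_facts {x r : ℝ} (hx : 1 ≤ x) (hr : r = Real.exp (1 / 4 * Real.log x)) :
    1 ≤ r ∧ r ^ 4 = x ∧ √(Real.log x) ≤ r := by
  have hlog : 0 ≤ Real.log x := Real.log_nonneg hx
  have h1 : 1 ≤ r := by
    rw [hr]
    exact Real.one_le_exp (by positivity)
  have h2 : r ^ 4 = x := by
    rw [hr, ← Real.exp_nat_mul]
    push_cast
    rw [show (4 : ℝ) * (1 / 4 * Real.log x) = Real.log x by ring, Real.exp_log (by linarith)]
  refine ⟨h1, h2, ?_⟩
  rw [Real.sqrt_le_left (by linarith)]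
  -- `log x ≤ r ^ 2`
  have h3 : Real.log x = 4 * Real.log r := by
    rw [← h2, Real.log_pow]
    norm_num
  rw [h3]
  -- `4 log r ≤ r ^ 2`: with `y = r ^ 2`, `2 log y ≤ y`
  have h4 : Real.log (r ^ 2 / 2) ≤ r ^ 2 / 2 - 1 := Real.log_le_sub_one_of_pos (by positivity)
  rw [Real.log_div (by positivity) (by norm_num), Real.log_pow] at h4
  have h5 := Real.log_two_lt_d9
  push_cast at h4
  linarith

/-- the combinatorial condition for graphs containing a complete bipartite graph -/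
lemma comb_bip {s t n q M : ℕ} (hn : 0 < n) (H₀ : SimpleGraph (Fin t))
    (hq : 4 * n ^ 2 < (q + 1) * (s * t)) (hM : 4 * M ≤ s * t)
    (H : SimpleGraph (Fin (s + t))) (hH : ∀ x y, H.Adj x y ↔
      (addDominant H₀ s).Adj (finSumFinEquiv.symm x) (finSumFinEquiv.symm y))
    (B : Fin (s + t) → Finset (Fin n)) (hB : ∀ x y, x ≠ y → Disjoint (B x) (B y)) :
    M ≤ ((univ : Finset (Fin (s + t) × Fin (s + t))).filter
        (fun p => p.1 < p.2 ∧ H.Adj p.1 p.2 ∧ (B p.1).card * (B p.2).card ≤ q)).card := by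
  have hs : 0 < s := by
    rcases Nat.eq_zero_or_pos s with rfl | h
    · simp at hq
    · exact h
  have ht : 0 < t := by
    rcases Nat.eq_zero_or_pos t with rfl | h
    · simp at hq
    · exact h
  set e : Fin s ⊕ Fin t ≃ Fin (s + t) := finSumFinEquiv with he
  have h1 : ∑ a : Fin s, (B (e (Sum.inl a))).card ≤ n := by
    apply sum_disjoint
    intro a a' haa
    exact hB _ _ (fun h => haa (Sum.inl.inj (e.injective h)))
  have h2 : ∑ b : Fin t, (B (e (Sum.inr b))).card ≤ n := by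
    apply sum_disjoint
    intro b b' hbb
    exact hB _ _ (fun h => hbb (Sum.inr.inj (e.injective h)))
  have h3 := big_few (k := s) (m := 2) _ hn h1
  have h4 := big_few (k := t) (m := 2) _ hn h2
  set Xs := univ.filter (fun a : Fin s => ¬ (2 * n < s * (B (e (Sum.inl a))).card)) with hXs
  set Xt := univ.filter (fun b : Fin t => ¬ (2 * n < t * (B (e (Sum.inr b))).card)) with hXt
  have h5 : (univ.filter (fun a : Fin s => 2 * n < s * (B (e (Sum.inl a))).card)).card + Xs.card =
      s := by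
    rw [hXs]
    have := card_filter_add_card_filter_not (s := (univ : Finset (Fin s)))
      (fun a : Fin s => 2 * n < s * (B (e (Sum.inl a))).card)
    rw [card_univ, Fintype.card_fin] at this
    exact this
  have h6 : (univ.filter (fun b : Fin t => 2 * n < t * (B (e (Sum.inr b))).card)).card + Xt.card =
      t := by
    rw [hXt]
    have := card_filter_add_card_filter_not (s := (univ : Finset (Fin t)))
      (fun b : Fin t => 2 * n < t * (B (e (Sum.inr b))).card)
    rw [card_univ, Fintype.card_fin] at this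
    exact this
  have h7 : s ≤ 2 * Xs.card := by omega
  have h8 : t ≤ 2 * Xt.card := by omega
  have h9 : s * t ≤ 4 * (Xs.card * Xt.card) := by
    calc s * t ≤ (2 * Xs.card) * (2 * Xt.card) := Nat.mul_le_mul h7 h8
      _ = _ := by ring
  have h10 : (Xs ×ˢ Xt).card ≤ ((univ : Finset (Fin (s + t) × Fin (s + t))).filter
        (fun p => p.1 < p.2 ∧ H.Adj p.1 p.2 ∧ (B p.1).card * (B p.2).card ≤ q)).card := by
    refine card_le_card_of_injOn (fun p => (e (Sum.inl p.1), e (Sum.inr p.2))) ?_ ?_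
    · rintro ⟨a, b⟩ hab
      rw [mem_coe, mem_product] at hab
      rw [mem_coe, mem_filter]
      refine ⟨mem_univ _, ?_, ?_, ?_⟩
      · rw [Fin.lt_def]
        have : a.val < s + b.val := by
          have := a.2
          omega
        simpa [he] using this
      · rw [hH, Equiv.symm_apply_apply, Equiv.symm_apply_apply]
        trivial
      · have e1 := (mem_filter.1 hab.1).2
        have e2 := (mem_filter.1 hab.2).2
        push Not at e1 e2
        have e3 := Nat.mul_le_mul e1 e2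
        by_contra hcon
        push Not at hcon
        have e4 : (q + 1) * (s * t) ≤
            ((B (e (Sum.inl a))).card * (B (e (Sum.inr b))).card) * (s * t) :=
          Nat.mul_le_mul_right _ hcon
        have e5 : ((B (e (Sum.inl a))).card * (B (e (Sum.inr b))).card) * (s * t) ≤ 4 * n ^ 2 := by
          calc ((B (e (Sum.inl a))).card * (B (e (Sum.inr b))).card) * (s * t)
              = (s * (B (e (Sum.inl a))).card) * (t * (B (e (Sum.inr b))).card) := by ring
            _ ≤ (2 * n) * (2 * n) := e3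
            _ = _ := by ring
        omega
    · rintro ⟨a, b⟩ _ ⟨a', b'⟩ _ heq
      obtain ⟨e1, e2⟩ := Prod.mk.inj heq
      dsimp only at e1 e2
      rw [Sum.inl.inj (e.injective e1), Sum.inr.inj (e.injective e2)]
  rw [card_product] at h10
  omega

/-- **the lower bound `√(s t log s)`** -/
theorem lower_bip {s t : ℕ} (hs : 2 ≤ s) (hst : s ≤ t) (ht : 1024 ≤ t) (H₀ : SimpleGraph (Fin t))
    {c : ℝ} (hc : Forces (addDominant H₀ s) c) : 1 / 16 * √(s * t * Real.log s) ≤ c := by
  have hsR : (2 : ℝ) ≤ s := by exact_mod_cast hs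
  have hstR : (s : ℝ) ≤ t := by exact_mod_cast hst
  have htR : (1024 : ℝ) ≤ t := by exact_mod_cast ht
  have hlogs : 0 < Real.log s := Real.log_pos (by linarith)
  have hlog2 := Real.log_two_gt_d9
  have hlog2' := Real.log_two_lt_d9
  have hlogs2 : Real.log 2 ≤ Real.log s := Real.log_le_log (by norm_num) hsR
  set X := √(s * t * Real.log s) with hX
  have hX2 : X ^ 2 = s * t * Real.log s := Real.sq_sqrt (by positivity)
  have hX0 : 0 ≤ X := Real.sqrt_nonneg _
  have hX32 : 32 ≤ X := by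
    apply Real.le_sqrt_of_sq_le
    have h1 : (2 : ℝ) * 1024 ≤ s * t := mul_le_mul hsR htR (by norm_num) (by positivity)
    have h2 : (2 : ℝ) * 1024 * (1 / 2) ≤ s * t * Real.log s :=
      mul_le_mul h1 (by linarith) (by norm_num) (by positivity)
    linarith
  set n := ⌊1 / 4 * X⌋₊ with hn
  have hn1 : (n : ℝ) ≤ 1 / 4 * X := Nat.floor_le (by positivity)
  have hn2 : 1 / 4 * X < n + 1 := Nat.lt_floor_add_one _
  have hn0 : 0 < n := by
    have : (1 : ℝ) ≤ n := by
      have h1 : (7 : ℝ) < n := by linarith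
      linarith
    exact_mod_cast this
  have hst0 : 0 < s * t := by positivity
  set q := 4 * n ^ 2 / (s * t) with hq
  set M := s * t / 4 with hM
  obtain ⟨H, hH⟩ : ∃ H : SimpleGraph (Fin (s + t)), ∀ x y, H.Adj x y ↔
      (addDominant H₀ s).Adj (finSumFinEquiv.symm x) (finSumFinEquiv.symm y) :=
    ⟨(addDominant H₀ s).comap finSumFinEquiv.symm, fun _ _ => Iff.rfl⟩
  have hcH : Forces H c := by
    intro V _ _ G hG
    refine minor_trans (minor_sub finSumFinEquiv.symm finSumFinEquiv.symm.injective ?_) (hc V G hG)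
    intro u v huv
    exact (hH u v).1 huv
  have hq1 : 4 * n ^ 2 < (q + 1) * (s * t) := by
    have := Nat.lt_mul_div_succ (4 * n ^ 2) hst0
    calc 4 * n ^ 2 < (s * t) * (q + 1) := this
      _ = _ := by ring
  have hM1 : 4 * M ≤ s * t := Nat.mul_div_le _ _
  have hqR : (q : ℝ) ≤ 1 / 4 * Real.log s := by
    have h1 : q * (s * t) ≤ 4 * n ^ 2 := Nat.div_mul_le_self _ _
    have h2 : (q : ℝ) * (s * t) ≤ 4 * (n : ℝ) ^ 2 := by exact_mod_cast h1
    have h3 : (n : ℝ) ^ 2 ≤ (1 / 4 * X) ^ 2 := pow_le_pow_left₀ (by positivity) hn1 2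
    have h4 : (q : ℝ) * (s * t) ≤ (1 / 4 * Real.log s) * (s * t) := by
      calc (q : ℝ) * (s * t) ≤ 4 * (n : ℝ) ^ 2 := h2
        _ ≤ 4 * (1 / 4 * X) ^ 2 := by linarith
        _ = 1 / 4 * X ^ 2 := by ring
        _ = _ := by rw [hX2]; ring
    exact le_of_mul_le_mul_right h4 (by positivity)
  set r := Real.exp (1 / 4 * Real.log s) with hr
  have hs1 : (1 : ℝ) ≤ s := by linarith
  obtain ⟨hr1, hr4, hrlog⟩ := r_facts hs1 hr
  have hhalf := half_pow hs1 hr hqR
  have hr0 : 0 < r := by linarith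
  set T := √(t : ℝ) with hT
  have hT2 : T ^ 2 = t := Real.sq_sqrt (by positivity)
  have hT32 : 32 ≤ T := by
    apply Real.le_sqrt_of_sq_le
    linarith
  have hXr : X ≤ r ^ 3 * T := by
    apply Real.sqrt_le_iff.2
    refine ⟨by positivity, ?_⟩
    have h1 : Real.log s ≤ r ^ 2 := by
      have h2 := Real.sq_sqrt hlogs.le
      rw [← h2]
      exact pow_le_pow_left₀ (Real.sqrt_nonneg _) hrlog 2
    have h3 : (r ^ 3 * T) ^ 2 = r ^ 4 * T ^ 2 * r ^ 2 := by ring
    rw [h3, hr4, hT2]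
    gcongr
  have hlogt : 2 * Real.log ((s + t + 1 : ℕ) : ℝ) + 1 ≤ T := by
    have h1 : ((s + t + 1 : ℕ) : ℝ) ≤ 4 * t := by
      push_cast
      linarith
    have h2 : Real.log ((s + t + 1 : ℕ) : ℝ) ≤ Real.log (4 * t) :=
      Real.log_le_log (by positivity) h1
    have h3 : Real.log (4 * t) = 2 * Real.log 2 + 2 * Real.log T := by
      rw [← hT2, show (4 : ℝ) * T ^ 2 = (2 * T) ^ 2 by ring, Real.log_pow,
        Real.log_mul (by norm_num) (by positivity)]
      push_cast
      ring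
    have h4 : Real.log T ≤ 5 * Real.log 2 + (T / 32 - 1) := by
      have h5 : Real.log (T / 32) ≤ T / 32 - 1 := Real.log_le_sub_one_of_pos (by positivity)
      rw [Real.log_div (by positivity) (by norm_num)] at h5
      have h6 : Real.log 32 = 5 * Real.log 2 := by
        rw [show (32 : ℝ) = 2 ^ 5 by norm_num, Real.log_pow]
        norm_num
      linarith
    linarith
  have hnum : (n : ℝ) * Real.log ((s + t + 1 : ℕ) : ℝ) + 1 < M * (1 / 2) ^ q := by
    have hMR : (s : ℝ) * t / 8 ≤ M := by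
      have h1 : s * t < 4 * (M + 1) := by
        have := Nat.lt_mul_div_succ (s * t) (show 0 < 4 by norm_num)
        rw [hM]
        exact this
      have h2 : (s : ℝ) * t < 4 * (M + 1) := by exact_mod_cast h1
      have h3 : (8 : ℝ) ≤ s * t := by nlinarith
      linarith
    have h1 : (s : ℝ) * t / 8 * (1 / r) ≤ M * (1 / 2) ^ q := by
      apply mul_le_mul hMR hhalf (by positivity) (by positivity)
    have h2 : (s : ℝ) * t / 8 * (1 / r) = r ^ 3 * T ^ 2 / 8 := by
      rw [← hr4, ← hT2]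
      field_simp
    set L := Real.log ((s + t + 1 : ℕ) : ℝ) with hL
    have hL0 : 0 ≤ L := Real.log_nonneg (by push_cast; linarith)
    have h3 : (n : ℝ) * L ≤ 1 / 4 * (r ^ 3 * T) * L := by
      apply mul_le_mul_of_nonneg_right _ hL0
      linarith
    have hr3 : 1 ≤ r ^ 3 := one_le_pow₀ hr1
    have h4 : 1 / 4 * (r ^ 3 * T) * L + 1 ≤ r ^ 3 * (1 / 4 * T * L + 1) := by
      have : r ^ 3 * (1 / 4 * T * L + 1) = 1 / 4 * (r ^ 3 * T) * L + r ^ 3 := by ring
      linarith
    have h5 : 1 / 4 * T * L + 1 < T ^ 2 / 8 := by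
      have h6 : 1 / 4 * T * L ≤ 1 / 4 * T * ((T - 1) / 2) :=
        mul_le_mul_of_nonneg_left (by linarith) (by positivity)
      have h7 : 1 / 4 * T * ((T - 1) / 2) = T ^ 2 / 8 - T / 8 := by ring
      linarith
    have h6 : r ^ 3 * (1 / 4 * T * L + 1) < r ^ 3 * (T ^ 2 / 8) := by
      apply mul_lt_mul_of_pos_left h5 (by positivity)
    calc (n : ℝ) * L + 1 ≤ r ^ 3 * (1 / 4 * T * L + 1) := by linarith
      _ < r ^ 3 * (T ^ 2 / 8) := h6
      _ = s * t / 8 * (1 / r) := by rw [h2]; ring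
      _ ≤ _ := h1
  have hfin := lower_of hn0 (random H (fun B hB => comb_bip hn0 H₀ hq1 hM1 H hH B hB)
    (num_cond hnum)) hcH
  linarith

end Pool.Agent.R34.FH
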