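import Mathlib
import Pool.Agent.R34.FH.Lower

/-!
The lower bound `t √(log d)` for dense regular graphs.
-/

set_option autoImplicit false
set_option linter.unusedSectionVars false

namespace Pool.Agent.R34.FH

open SimpleGraph Finset Classical
open Pool.Agent.TH507.Host Pool.Agent.R34.Ident

/-- the combinatorial condition for regular graphs -/
lemma comb_reg {t n q M d : ℕ} (hn : 0 < n) (H₀ : SimpleGraph (Fin t)) (hd : Regular H₀ d)
    (hq : 64 * n ^ 2 < (q + 1) * t ^ 2) (hM : 8 * M ≤ 3 * (t * d))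
    (B : Fin t → Finset (Fin n)) (hB : ∀ x y, x ≠ y → Disjoint (B x) (B y)) :
    M ≤ ((univ : Finset (Fin t × Fin t)).filter
        (fun p => p.1 < p.2 ∧ H₀.Adj p.1 p.2 ∧ (B p.1).card * (B p.2).card ≤ q)).card := by
  have h1 := big_few (k := t) (m := 8) (fun x => (B x).card) hn (sum_disjoint B hB)
  set Big := univ.filter (fun x : Fin t => 8 * n < t * (B x).card) with hBig
  have hnbd : ∀ x, (nb H₀ x).card = d := by
    intro x
    rw [← hd x, ← Set.ncard_coe_finset]
    congr 1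
    ext y
    rw [mem_coe, mem_nb, mem_neighborSet]
  set L := (univ : Finset (Fin t × Fin t)).filter
        (fun p => p.1 < p.2 ∧ H₀.Adj p.1 p.2 ∧ (B p.1).card * (B p.2).card ≤ q) with hL
  set P := (univ : Finset (Fin t × Fin t)).filter (fun p => H₀.Adj p.1 p.2) with hP
  have hPc : P.card = t * d := by
    have : P.card = pr H₀ := rfl
    rw [this, pr_eq, sum_congr rfl (fun x _ => hnbd x), sum_const, card_univ, Fintype.card_fin,
      smul_eq_mul]
  set P1 := Big.biUnion (fun x => (nb H₀ x).image (fun y => (x, y))) with hP1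
  set P2 := Big.biUnion (fun x => (nb H₀ x).image (fun y => (y, x))) with hP2
  have hP1c : P1.card ≤ Big.card * d := by
    refine card_biUnion_le_card_mul _ _ _ (fun x _ => ?_)
    exact card_image_le.trans (hnbd x).le
  have hP2c : P2.card ≤ Big.card * d := by
    refine card_biUnion_le_card_mul _ _ _ (fun x _ => ?_)
    exact card_image_le.trans (hnbd x).le
  have hsmall : ∀ x y, x ∉ Big → y ∉ Big → (B x).card * (B y).card ≤ q := by
    intro x y hx hy
    rw [hBig, mem_filter, not_and] at hx hy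
    have e1 := hx (mem_univ _)
    have e2 := hy (mem_univ _)
    push Not at e1 e2
    have e3 := Nat.mul_le_mul e1 e2
    by_contra hcon
    push Not at hcon
    have e4 : (q + 1) * t ^ 2 ≤ ((B x).card * (B y).card) * t ^ 2 := Nat.mul_le_mul_right _ hcon
    have e5 : ((B x).card * (B y).card) * t ^ 2 ≤ 64 * n ^ 2 := by
      calc ((B x).card * (B y).card) * t ^ 2 = (t * (B x).card) * (t * (B y).card) := by ring
        _ ≤ (8 * n) * (8 * n) := e3
        _ = _ := by ring
    omega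
  have hsub : P ⊆ (L ∪ L.image Prod.swap) ∪ (P1 ∪ P2) := by
    rintro ⟨x, y⟩ hxy
    have hadj : H₀.Adj x y := (mem_filter.1 hxy).2
    rw [mem_union, mem_union, mem_union]
    by_cases hx : x ∈ Big
    · right; left
      exact mem_biUnion.2 ⟨x, hx, mem_image.2 ⟨y, mem_nb.2 hadj, rfl⟩⟩
    by_cases hy : y ∈ Big
    · right; right
      exact mem_biUnion.2 ⟨y, hy, mem_image.2 ⟨x, mem_nb.2 hadj.symm, rfl⟩⟩
    left
    rcases lt_or_gt_of_ne hadj.ne with hlt | hlt
    · left
      exact mem_filter.2 ⟨mem_univ _, hlt, hadj, hsmall x y hx hy⟩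
    · right
      exact mem_image.2 ⟨(y, x), mem_filter.2 ⟨mem_univ _, hlt, hadj.symm, hsmall y x hy hx⟩, rfl⟩
  have h2 := card_le_card hsub
  have h3 := card_union_le (L ∪ L.image Prod.swap) (P1 ∪ P2)
  have h4 := card_union_le L (L.image Prod.swap)
  have h5 := card_union_le P1 P2
  have h6 : (L.image Prod.swap).card ≤ L.card := card_image_le
  have h7 : 8 * (Big.card * d) ≤ t * d := by
    calc 8 * (Big.card * d) = (8 * Big.card) * d := by ring
      _ ≤ t * d := Nat.mul_le_mul_right _ h1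
  omega

/-- **the lower bound `t √(log d)`** for `d ≥ (log t) ^ 2` -/
theorem lower_reg {d t : ℕ} (hd : 2 ≤ d) (ht : 1024 ≤ t) (hdt : (Real.log t) ^ 2 ≤ d)
    (H₀ : SimpleGraph (Fin t)) (hreg : Regular H₀ d) {c : ℝ} (hc : Forces H₀ c) :
    1 / 64 * (t * √(Real.log d)) ≤ c := by
  have hdR : (2 : ℝ) ≤ d := by exact_mod_cast hd
  have htR : (1024 : ℝ) ≤ t := by exact_mod_cast ht
  have hlogd : 0 < Real.log d := Real.log_pos (by linarith)
  have hlog2 := Real.log_two_gt_d9
  have hlog2' := Real.log_two_lt_d9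
  have hlogd2 : Real.log 2 ≤ Real.log d := Real.log_le_log (by norm_num) hdR
  set a := √(Real.log d) with ha
  have ha2 : a ^ 2 = Real.log d := Real.sq_sqrt hlogd.le
  have ha0 : 0 < a := Real.sqrt_pos.2 hlogd
  have ha1 : 1 / 2 ≤ a := by
    apply Real.le_sqrt_of_sq_le
    linarith
  set X := (t : ℝ) * a with hX
  have hX0 : 512 ≤ X := by
    have : (1024 : ℝ) * (1 / 2) ≤ t * a := mul_le_mul htR ha1 (by norm_num) (by positivity)
    linarith
  set n := ⌊1 / 16 * X⌋₊ with hn
  have hn1 : (n : ℝ) ≤ 1 / 16 * X := Nat.floor_le (by positivity)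
  have hn2 : 1 / 16 * X < n + 1 := Nat.lt_floor_add_one _
  have hn0 : 0 < n := by
    have : (1 : ℝ) ≤ n := by linarith
    exact_mod_cast this
  have ht0 : 0 < t ^ 2 := by positivity
  set q := 64 * n ^ 2 / t ^ 2 with hq
  set M := 3 * (t * d) / 8 with hM
  have hq1 : 64 * n ^ 2 < (q + 1) * t ^ 2 := by
    have := Nat.lt_mul_div_succ (64 * n ^ 2) ht0
    calc 64 * n ^ 2 < t ^ 2 * (q + 1) := this
      _ = _ := by ring
  have hM1 : 8 * M ≤ 3 * (t * d) := Nat.mul_div_le _ _
  have hqR : (q : ℝ) ≤ 1 / 4 * Real.log d := by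
    have h1 : q * t ^ 2 ≤ 64 * n ^ 2 := Nat.div_mul_le_self _ _
    have h2 : (q : ℝ) * (t : ℝ) ^ 2 ≤ 64 * (n : ℝ) ^ 2 := by exact_mod_cast h1
    have h3 : (n : ℝ) ^ 2 ≤ (1 / 16 * X) ^ 2 := pow_le_pow_left₀ (by positivity) hn1 2
    have h4 : (q : ℝ) * (t : ℝ) ^ 2 ≤ (1 / 4 * Real.log d) * (t : ℝ) ^ 2 := by
      calc (q : ℝ) * (t : ℝ) ^ 2 ≤ 64 * (n : ℝ) ^ 2 := h2
        _ ≤ 64 * (1 / 16 * X) ^ 2 := by linarith
        _ = (1 / 4 * a ^ 2) * (t : ℝ) ^ 2 := by rw [hX]; ring
        _ = _ := by rw [ha2]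
    exact le_of_mul_le_mul_right h4 (by positivity)
  set r := Real.exp (1 / 4 * Real.log d) with hr
  have hd1 : (1 : ℝ) ≤ d := by linarith
  obtain ⟨hr1, hr4, hrlog⟩ := r_facts hd1 hr
  have hhalf := half_pow hd1 hr hqR
  have hr0 : 0 < r := by linarith
  have hr2 : r ^ 2 = √(d : ℝ) := by
    rw [← hr4, show r ^ 4 = (r ^ 2) ^ 2 by ring, Real.sqrt_sq (by positivity)]
  have hlogt : Real.log ((t + 1 : ℕ) : ℝ) ≤ 2 * r ^ 2 := by
    have h1 : Real.log t ≤ r ^ 2 := by
      rw [hr2]
      exact Real.le_sqrt_of_sq_le hdt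
    have h2 : Real.log ((t + 1 : ℕ) : ℝ) ≤ Real.log t + 1 := by
      have h3 : ((t + 1 : ℕ) : ℝ) ≤ t * Real.exp 1 := by
        have := Real.exp_one_gt_d9
        push_cast
        nlinarith
      calc Real.log ((t + 1 : ℕ) : ℝ) ≤ Real.log (t * Real.exp 1) :=
            Real.log_le_log (by positivity) h3
        _ = _ := by rw [Real.log_mul (by positivity) (by positivity), Real.log_exp]
    have h3 : 1 ≤ r ^ 2 := one_le_pow₀ hr1
    linarith
  have hnum : (n : ℝ) * Real.log ((t + 1 : ℕ) : ℝ) + 1 < M * (1 / 2) ^ q := by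
    have hMR : (t : ℝ) * d / 4 ≤ M := by
      have h1 : 3 * (t * d) < 8 * (M + 1) := by
        have := Nat.lt_mul_div_succ (3 * (t * d)) (show 0 < 8 by norm_num)
        rw [hM]
        exact this
      have h2 : (3 : ℝ) * (t * d) < 8 * (M + 1) := by exact_mod_cast h1
      have h3 : (1024 : ℝ) * 2 ≤ t * d := mul_le_mul htR hdR (by norm_num) (by positivity)
      linarith
    have h1 : (t : ℝ) * d / 4 * (1 / r) ≤ M * (1 / 2) ^ q := by
      apply mul_le_mul hMR hhalf (by positivity) (by positivity)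
    have h2 : (t : ℝ) * d / 4 * (1 / r) = t * r ^ 3 / 4 := by
      rw [← hr4]
      field_simp
    set L := Real.log ((t + 1 : ℕ) : ℝ) with hL
    have hL0 : 0 ≤ L := Real.log_nonneg (by push_cast; linarith)
    have h3 : (n : ℝ) * L ≤ (1 / 16 * (t * r)) * (2 * r ^ 2) := by
      apply mul_le_mul _ hlogt hL0 (by positivity)
      refine hn1.trans ?_
      have : X ≤ t * r := mul_le_mul_of_nonneg_left hrlog (by positivity)
      linarith
    have h4 : (1 / 16 * (t * r)) * (2 * r ^ 2) = t * r ^ 3 / 8 := by ring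
    have h5 : (1024 : ℝ) * 1 ≤ t * r ^ 3 :=
      mul_le_mul htR (one_le_pow₀ hr1) (by norm_num) (by positivity)
    linarith
  have hfin := lower_of hn0 (random H₀ (fun B hB => comb_reg hn0 H₀ hreg hq1 hM1 B hB)
    (num_cond hnum)) hc
  linarith

/-- `H₀` is a subgraph of the graph with dominant vertices -/
lemma forces_sub {t s : ℕ} (H₀ : SimpleGraph (Fin t)) {c : ℝ} (hc : Forces (addDominant H₀ s) c) :
    Forces H₀ c := by
  intro V _ _ G hG
  exact minor_trans (minor_sub Sum.inr Sum.inr_injective (fun _ _ h => h)) (hc V G hG)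

end Pool.Agent.R34.FH
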